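import Pool.Agent.H85.W.Mod

/-!
The sum of the codimensions.
-/

set_option autoImplicit false

namespace Pool.Agent.H85.W

open Finset
open Pool.Agent.TH875 (Sm mem_Sm dg)
open Pool.Agent.NH28 (card_ge card_compare HH pow_sub_pow_le')

lemma HH_le_sum (ν T J B t0 : ℕ) (hJ : J + B ≤ T) :
    HH ν B t0 T J ≤ ∑ u ∈ Finset.range J, (((T : ℝ) - B - u) / (T + t0 - B + 1)) ^ ν := by
  have hJT : (J : ℝ) + B ≤ T := by exact_mod_cast hJ
  have ht0 : (0 : ℝ) ≤ t0 := Nat.cast_nonneg _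
  have hJ0 : (0 : ℝ) ≤ J := Nat.cast_nonneg _
  have hY : (0 : ℝ) < (T : ℝ) + t0 - B + 1 := by linarith
  have h3 : ∀ u ∈ Finset.range J, ((((T : ℝ) - B - u) ^ (ν + 1)) -
      (((T : ℝ) - B - ((u + 1 : ℕ) : ℝ)) ^ (ν + 1))) / ((ν + 1) * ((T : ℝ) + t0 - B + 1) ^ ν) ≤
      (((T : ℝ) - B - u) / (T + t0 - B + 1)) ^ ν := by
    intro u hu
    have hu' : (u : ℝ) + 1 ≤ J := by exact_mod_cast Finset.mem_range.1 hu
    have h4 := pow_sub_pow_le' ν (a := (T : ℝ) - B - u) (b := (T : ℝ) - B - ((u + 1 : ℕ) : ℝ))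
      (by push_cast; linarith) (by push_cast; linarith)
    have h5 : (T : ℝ) - B - u - ((T : ℝ) - B - ((u + 1 : ℕ) : ℝ)) = 1 := by push_cast; ring
    rw [h5, one_mul] at h4
    have hν : (0 : ℝ) < (ν : ℝ) + 1 := by positivity
    rw [div_pow, div_le_div_iff₀ (by positivity) (by positivity)]
    have h6 := mul_le_mul_of_nonneg_right h4 (pow_pos hY ν).le
    linarith
  refine le_trans (le_of_eq ?_) (Finset.sum_le_sum h3)
  rw [← Finset.sum_div]
  unfold HH
  congr 1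
  have h7 := Finset.sum_range_sub' (fun u : ℕ => ((T : ℝ) - B - u) ^ (ν + 1)) J
  rw [h7]
  simp

lemma tele (a : ℕ → ℝ) (ha : Monotone a) (ha0 : ∀ k, 0 ≤ a k) (T J t1 : ℕ) (hJ : J ≤ T) :
    ∀ t, t ≤ t1 → ∑ m ∈ Finset.range J, (a (T - (m + 1) + t) - a (T - (m + 1))) ≤
      t * a (T + t1) := by
  intro t
  induction t with
  | zero =>
    intro _
    simp
  | succ t ih =>
    intro ht
    have h1 := ih (by omega)
    have h2 : ∑ m ∈ Finset.range J, (a (T - (m + 1) + (t + 1)) - a (T - (m + 1))) =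
        ∑ m ∈ Finset.range J, (a (T - (m + 1) + t) - a (T - (m + 1))) +
        ∑ m ∈ Finset.range J, (a (T - m + t) - a (T - (m + 1) + t)) := by
      rw [← Finset.sum_add_distrib]
      refine Finset.sum_congr rfl fun m hm => ?_
      have hm' := Finset.mem_range.1 hm
      rw [show T - (m + 1) + (t + 1) = T - m + t by omega]
      ring
    have h3 := Finset.sum_range_sub' (fun m : ℕ => a (T - m + t)) J
    rw [h2, h3]
    have h4 : a (T - 0 + t) ≤ a (T + t1) := ha (by omega)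
    have h5 := ha0 (T - J + t)
    push_cast
    linarith

lemma Sm_mono {n ν D : ℕ} (hD : 1 ≤ D) (E : Finset (Fin n →₀ ℕ)) :
    Monotone fun k => ((Sm D E (ν + 1) (D * k)).card : ℝ) := by
  refine monotone_nat_of_le_succ fun k => ?_
  have h1 := card_ge hD E (D * (k + 1)) 1 (0 : Fin (ν + 1)) (by
    rw [mul_one]
    exact Nat.le_mul_of_pos_right _ (by omega))
  rw [show D * (k + 1) - D * 1 = D * k by rw [← Nat.mul_sub]; congr 1] at h1
  show ((Sm D E (ν + 1) (D * k)).card : ℝ) ≤ (Sm D E (ν + 1) (D * (k + 1))).card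
  rw [← h1]
  exact_mod_cast Finset.card_filter_le _ _

theorem codim_sum {n ν D : ℕ} (hD : 1 ≤ D) {Sy : Type} [Fintype Sy] [Nonempty Sy]
    (E : Sy → Finset (Fin n →₀ ℕ)) (T J B t1 : ℕ) (hB : ∀ e, ∀ β ∈ E e, β.degree ≤ D * B)
    (hJ : J + B ≤ T) (Nn : ℕ → ℕ) (h1 : ∀ e k, (Sm D (E e) (ν + 1) (D * k)).card ≤ Nn k)
    (h2 : ∀ e k, Nn k ≤ (Sm D (E e) (ν + 1) (D * (k + t1))).card) :
    ∑ m ∈ Finset.range J, ((Nn T : ℝ) - (Nn (T - (m + 1)) -
      ∑ e, ((Nn (T - (m + 1)) : ℝ) - (Sm D (E e) (ν + 1) (D * (T - (m + 1)))).card))) ≤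
      Nn T * (J - HH ν B t1 T J + Fintype.card Sy * (t1 * (1 + t1) ^ ν)) := by
  classical
  set N : ℝ := (Nn T : ℝ) with hN
  have hN0 : 0 ≤ N := Nat.cast_nonneg _
  set a : Sy → ℕ → ℝ := fun e k => ((Sm D (E e) (ν + 1) (D * k)).card : ℝ) with ha
  obtain ⟨e0⟩ : Nonempty Sy := inferInstance
  have hJT : (J : ℝ) + B ≤ T := by exact_mod_cast hJ
  have ht1 : (0 : ℝ) ≤ t1 := Nat.cast_nonneg _
  have hJ0 : (0 : ℝ) ≤ J := Nat.cast_nonneg _
  have hY : (0 : ℝ) < (T : ℝ) + t1 - B + 1 := by linarith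
  have hterm : ∀ m ∈ Finset.range J, ((N : ℝ) - (Nn (T - (m + 1)) -
      ∑ e, ((Nn (T - (m + 1)) : ℝ) - (Sm D (E e) (ν + 1) (D * (T - (m + 1)))).card))) ≤
      (N - N * (((T : ℝ) - B - m) / (T + t1 - B + 1)) ^ ν) +
        ∑ e, (a e (T - (m + 1) + t1) - a e (T - (m + 1))) := by
    intro m hm
    have hm' := Finset.mem_range.1 hm
    have h3 := card_compare (ν := ν) hD (E e0) T (m + 1) B t1 (hB e0) (by omega)
    have h4 : (N : ℝ) ≤ (Sm D (E e0) (ν + 1) (D * (T + t1))).card := by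
      rw [hN]
      exact_mod_cast h2 e0 T
    have h5 : ((Sm D (E e0) (ν + 1) (D * (T - (m + 1)))).card : ℝ) ≤ Nn (T - (m + 1)) := by
      exact_mod_cast h1 e0 _
    have hmJ : (m : ℝ) + 1 ≤ J := by exact_mod_cast hm'
    have e1 : (T : ℝ) - ((m + 1 : ℕ) : ℝ) - B + 1 = T - B - m := by push_cast; ring
    rw [e1] at h3
    have h6 : (0 : ℝ) ≤ (((T : ℝ) - B - m) / (T + t1 - B + 1)) ^ ν := by
      refine pow_nonneg (div_nonneg ?_ hY.le) _
      linarith
    have h7 := mul_le_mul_of_nonneg_right h4 h6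
    have h8 : ∑ e, ((Nn (T - (m + 1)) : ℝ) - (Sm D (E e) (ν + 1) (D * (T - (m + 1)))).card) ≤
        ∑ e, (a e (T - (m + 1) + t1) - a e (T - (m + 1))) := by
      refine Finset.sum_le_sum fun e _ => ?_
      have h9 : (Nn (T - (m + 1)) : ℝ) ≤ a e (T - (m + 1) + t1) := by
        simp only [ha]
        exact_mod_cast h2 e (T - (m + 1))
      simp only [ha] at h9 ⊢
      linarith
    linarith
  refine (Finset.sum_le_sum hterm).trans ?_
  rw [Finset.sum_add_distrib, Finset.sum_sub_distrib, Finset.sum_const, Finset.card_range,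
    nsmul_eq_mul, ← Finset.mul_sum, Finset.sum_comm]
  have h3 := mul_le_mul_of_nonneg_left (HH_le_sum ν T J B t1 hJ) hN0
  have h4 : ∑ e, ∑ m ∈ Finset.range J, (a e (T - (m + 1) + t1) - a e (T - (m + 1))) ≤
      ∑ _e : Sy, N * (t1 * (1 + t1) ^ ν) := by
    refine Finset.sum_le_sum fun e _ => ?_
    refine (tele (a e) (Sm_mono hD (E e)) (fun k => Nat.cast_nonneg _) T J t1 (by omega) t1
      le_rfl).trans ?_
    have h5 := card_compare (ν := ν) hD (E e) T 0 B t1 (hB e) (by omega)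
    have h6 : ((Sm D (E e) (ν + 1) (D * (T - 0))).card : ℝ) ≤ N := by
      rw [hN, Nat.sub_zero]
      exact_mod_cast h1 e T
    have hBT : (B : ℝ) ≤ T := by linarith
    have h7 : (1 / (1 + (t1 : ℝ))) ^ ν ≤ (((T : ℝ) - (0 : ℕ) - B + 1) / (T + t1 - B + 1)) ^ ν := by
      refine pow_le_pow_left₀ (by positivity) ?_ _
      rw [div_le_div_iff₀ (by positivity) hY]
      push_cast
      nlinarith
    have h8 : a e (T + t1) * (1 / (1 + (t1 : ℝ))) ^ ν ≤ N :=
      (mul_le_mul_of_nonneg_left h7 (Nat.cast_nonneg _)).trans (h5.trans h6)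
    have h9 : (0 : ℝ) < (1 + (t1 : ℝ)) ^ ν := by positivity
    rw [one_div, inv_pow, ← div_eq_mul_inv, div_le_iff₀ h9] at h8
    have h10 := mul_le_mul_of_nonneg_left h8 ht1
    linarith
  rw [Finset.sum_const, Finset.card_univ, nsmul_eq_mul] at h4
  have e2 : N * (J - HH ν B t1 T J + Fintype.card Sy * (t1 * (1 + t1) ^ ν)) =
    (J * N - N * HH ν B t1 T J) + Fintype.card Sy * (N * (t1 * (1 + t1) ^ ν)) := by ring
  rw [e2]
  linarith

end Pool.Agent.H85.W
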