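import Pool.Graph.R_pool_sql_team_seeded_3dad9d7b.NH28.Bas

/-!
Iterated filtrations of a vector space by several subspaces with weights.
-/

set_option autoImplicit false

namespace Pool.Agent.H85.W

open Finset Module MeasureTheory

section filt

variable {K V J : Type} [Field K] [AddCommGroup V] [Module K V]

open Classical in
/-- the iterated filtration -/
noncomputable def Fd (H : J → Submodule K V) (δ : J → ℝ) : List J → ℝ → Submodule K V
  | [], s => if 0 ≤ s then ⊤ else ⊥
  | j :: l, s => (Fd H δ l s ⊓ H j) ⊔ Fd H δ l (s - δ j)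

lemma Fd_mono (H : J → Submodule K V) (δ : J → ℝ) (l : List J) : Monotone (Fd H δ l) := by
  induction l with
  | nil =>
    intro s s' h
    unfold Fd
    split_ifs with h1 h2
    · exact le_rfl
    · exact absurd (h1.trans h) h2
    · exact bot_le
    · exact le_rfl
  | cons j l ih =>
    intro s s' h
    unfold Fd
    exact sup_le_sup (inf_le_inf_right _ (ih h)) (ih (by linarith))

lemma Fd_neg (H : J → Submodule K V) {δ : J → ℝ} (hδ : ∀ j, 0 ≤ δ j) (l : List J) :
    ∀ s, s < 0 → Fd H δ l s = ⊥ := by
  induction l with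
  | nil =>
    intro s h
    unfold Fd
    rw [if_neg (by linarith)]
  | cons j l ih =>
    intro s h
    unfold Fd
    have := hδ j
    rw [ih s h, ih (s - δ j) (by linarith), bot_inf_eq, bot_sup_eq]

lemma Fd_top (H : J → Submodule K V) {δ : J → ℝ} (l : List J) :
    ∀ s, (l.map δ).sum ≤ s → Fd H δ l s = ⊤ := by
  induction l with
  | nil =>
    intro s h
    unfold Fd
    rw [if_pos (by simpa using h)]
  | cons j l ih =>
    intro s h
    unfold Fd
    rw [List.map_cons, List.sum_cons] at h
    rw [ih (s - δ j) (by linarith), sup_top_eq]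

variable [FiniteDimensional K V]

lemma int_shift {δ B : ℝ} (v : ℝ → ℝ) (hv : Antitone v) (c : ℝ)
    (hneg : ∀ s, s < 0 → v s = c) (hδ : 0 ≤ δ) :
    ∫ s in (0 : ℝ)..B, v (s - δ) = c * δ + ∫ s in (0 : ℝ)..(B - δ), v s := by
  rw [intervalIntegral.integral_comp_sub_right (fun s => v s) δ,
    ← intervalIntegral.integral_add_adjacent_intervals (b := (0 : ℝ))
      (hv.intervalIntegrable) (hv.intervalIntegrable)]
  congr 1
  rw [zero_sub, intervalIntegral.integral_of_le (by linarith), integral_Ioc_eq_integral_Ioo]
  have h1 : ∫ s in Set.Ioo (-δ) 0, v s = ∫ _s in Set.Ioo (-δ) 0, c :=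
    setIntegral_congr_fun measurableSet_Ioo fun s hs => hneg s hs.2
  rw [h1, setIntegral_const, Real.volume_real_Ioo_of_le (by linarith), smul_eq_mul]
  ring

lemma Fd_int (H : J → Submodule K V) {δ : J → ℝ} (hδ : ∀ j, 0 ≤ δ j) (N : ℕ)
    (hN : finrank K V = N) (l : List J) : ∀ B, (l.map δ).sum ≤ B →
    ∫ s in (0 : ℝ)..B, ((N : ℝ) - finrank K (Fd H δ l s)) =
      (l.map fun j => δ j * ((N : ℝ) - finrank K (H j))).sum := by
  induction l with
  | nil =>
    intro B hB
    have hB0 : 0 ≤ B := by simpa using hB
    have h1 : ∫ s in (0 : ℝ)..B, ((N : ℝ) - finrank K (Fd H δ [] s)) =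
        ∫ _s in (0 : ℝ)..B, (0 : ℝ) := by
      refine intervalIntegral.integral_congr fun s hs => ?_
      rw [Set.uIcc_of_le hB0] at hs
      show (N : ℝ) - finrank K (Fd H δ [] s) = 0
      rw [Fd_top H [] s (by simpa using hs.1), finrank_top, hN, sub_self]
    rw [h1]
    simp
  | cons j l ih =>
    intro B hB
    rw [List.map_cons, List.sum_cons] at hB
    rw [List.map_cons, List.sum_cons]
    have hδj := hδ j
    set v : ℝ → ℝ := fun s => (N : ℝ) - finrank K (Fd H δ l s) with hv
    set u : ℝ → ℝ := fun s => (finrank K (H j) : ℝ) - finrank K (Fd H δ l s ⊓ H j : Submodule K V)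
      with hu
    have hva : Antitone v := by
      intro s s' h
      have h1 := Submodule.finrank_mono (Fd_mono H δ l h)
      have h2 : (finrank K (Fd H δ l s) : ℝ) ≤ finrank K (Fd H δ l s') := by exact_mod_cast h1
      simp only [hv]
      linarith
    have hua : Antitone u := by
      intro s s' h
      have h1 := Submodule.finrank_mono (inf_le_inf_right (H j) (Fd_mono H δ l h))
      have h2 : (finrank K (Fd H δ l s ⊓ H j : Submodule K V) : ℝ) ≤
        finrank K (Fd H δ l s' ⊓ H j : Submodule K V) := by exact_mod_cast h1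
      simp only [hu]
      linarith
    have hstep : ∀ s, (N : ℝ) - finrank K (Fd H δ (j :: l) s) =
        u s + (v (s - δ j) - u (s - δ j)) := by
      intro s
      have h1 := Submodule.finrank_sup_add_finrank_inf_eq (Fd H δ l s ⊓ H j)
        (Fd H δ l (s - δ j))
      have h2 : Fd H δ l s ⊓ H j ⊓ Fd H δ l (s - δ j) = Fd H δ l (s - δ j) ⊓ H j := by
        refine le_antisymm (le_inf inf_le_right (inf_le_left.trans inf_le_right)) ?_
        refine le_inf (le_inf (inf_le_left.trans (Fd_mono H δ l (by linarith))) inf_le_right)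
          inf_le_left
      rw [h2] at h1
      have h3 : (finrank K (Fd H δ l s ⊓ H j ⊔ Fd H δ l (s - δ j) : Submodule K V) : ℝ) +
          finrank K (Fd H δ l (s - δ j) ⊓ H j : Submodule K V) =
          finrank K (Fd H δ l s ⊓ H j : Submodule K V) + finrank K (Fd H δ l (s - δ j)) := by
        exact_mod_cast h1
      have h4 : Fd H δ (j :: l) s = Fd H δ l s ⊓ H j ⊔ Fd H δ l (s - δ j) := rfl
      rw [h4]
      simp only [hu, hv]
      linarith
    have hvs : Antitone fun s => v (s - δ j) := fun s s' h => hva (by linarith)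
    have hus : Antitone fun s => u (s - δ j) := fun s s' h => hua (by linarith)
    have e1 : ∫ s in (0 : ℝ)..B, ((N : ℝ) - finrank K (Fd H δ (j :: l) s)) =
        ∫ s in (0 : ℝ)..B, (u s + (v (s - δ j) - u (s - δ j))) :=
      intervalIntegral.integral_congr fun s _ => hstep s
    rw [e1, intervalIntegral.integral_add hua.intervalIntegrable
      (hvs.intervalIntegrable.sub hus.intervalIntegrable),
      intervalIntegral.integral_sub hvs.intervalIntegrable hus.intervalIntegrable,
      int_shift v hva N (by
        intro s hs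
        simp only [hv]
        rw [Fd_neg H hδ l s hs, finrank_bot]
        simp) hδj,
      int_shift u hua (finrank K (H j)) (by
        intro s hs
        simp only [hu]
        rw [Fd_neg H hδ l s hs, bot_inf_eq, finrank_bot]
        simp) hδj,
      ← intervalIntegral.integral_add_adjacent_intervals (b := B - δ j)
        (hua.intervalIntegrable) (hua.intervalIntegrable)]
    have e2 : ∫ s in (B - δ j)..B, u s = 0 := by
      have h1 : ∫ s in (B - δ j)..B, u s = ∫ _s in (B - δ j)..B, (0 : ℝ) := by
        refine intervalIntegral.integral_congr fun s hs => ?_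
        rw [Set.uIcc_of_le (by linarith)] at hs
        have := hs.1
        simp only [hu]
        rw [Fd_top H l s (by linarith), top_inf_eq, sub_self]
      rw [h1]
      simp
    have e3 := ih (B - δ j) (by linarith)
    rw [e2, show ∫ s in (0 : ℝ)..(B - δ j), v s = _ from e3]
    ring

/-- a basis adapted to the iterated filtration -/
theorem core_fd {ι : Type} [Fintype ι] (φ : ι → V) (N : ℕ) (hN : finrank K V = N)
    (H : J → Submodule K V) {δ : J → ℝ} (hδ : ∀ j, 0 ≤ δ j) (l : List J) (z : ι → ℝ) (c : ℝ)
    (h : ∀ s, 0 ≤ s → Fd H δ l s ≤ Submodule.span K (φ '' {i | z i ≤ s + c})) :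
    ∃ β : Fin N → ι, LinearIndependent K (fun a => φ (β a)) ∧
      ∑ a, z (β a) ≤ N * c + (l.map fun j => δ j * ((N : ℝ) - finrank K (H j))).sum := by
  classical
  set B : ℝ := (l.map δ).sum with hB
  have hB0 : 0 ≤ B := by
    rw [hB]
    refine List.sum_nonneg ?_
    intro x hx
    obtain ⟨j, -, rfl⟩ := List.mem_map.1 hx
    exact hδ j
  have hspan : Submodule.span K (Set.range φ) = ⊤ := by
    rw [eq_top_iff]
    have h1 := h B hB0
    rw [Fd_top H l B le_rfl] at h1
    refine h1.trans (Submodule.span_mono ?_)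
    rintro _ ⟨i, _, rfl⟩
    exact ⟨i, rfl⟩
  obtain ⟨β, hβ, hcount⟩ := Pool.Agent.NH28.greedy φ hspan (fun i => -z i) N hN
  refine ⟨β, hβ, ?_⟩
  have hcnt : ∀ s, 0 ≤ s → (finrank K (Fd H δ l s) : ℝ) ≤
      ((Finset.univ : Finset (Fin N)).filter fun a => z (β a) ≤ s + c).card := by
    intro s hs
    have h1 := hcount (-(s + c))
    have h2 := Submodule.finrank_mono (h s hs)
    have e1 : {i | -(s + c) ≤ -z i} = {i | z i ≤ s + c} := by
      ext i
      simp only [Set.mem_ofPred_eq, neg_le_neg_iff]
    rw [e1] at h1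
    have e2 : ((Finset.univ : Finset (Fin N)).filter fun a => -(s + c) ≤ -z (β a)) =
        (Finset.univ : Finset (Fin N)).filter fun a => z (β a) ≤ s + c := by
      ext a
      simp only [Finset.mem_filter, neg_le_neg_iff]
    rw [e2] at h1
    exact_mod_cast h2.trans h1
  have hle : ∀ a, z (β a) - c ≤ B := by
    intro a
    have h1 := hcnt B hB0
    rw [Fd_top H l B le_rfl, finrank_top, hN] at h1
    have h2 : N ≤ ((Finset.univ : Finset (Fin N)).filter fun a => z (β a) ≤ B + c).card := by
      exact_mod_cast h1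
    have h3 : (Finset.univ : Finset (Fin N)).filter (fun a => z (β a) ≤ B + c) = Finset.univ := by
      refine Finset.eq_univ_of_card _ (le_antisymm (Finset.card_le_univ _) ?_)
      rw [Fintype.card_fin]
      exact h2
    have h4 : a ∈ (Finset.univ : Finset (Fin N)).filter (fun a => z (β a) ≤ B + c) := by
      rw [h3]
      exact Finset.mem_univ a
    have := (Finset.mem_filter.1 h4).2
    linarith
  have hae : ∀ m : ℝ, (Set.Iio m).indicator (fun _ => (1 : ℝ)) =ᵐ[volume.restrict (Set.Ioc 0 B)]
      (Set.Iic m).indicator (fun _ => (1 : ℝ)) := fun m =>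
    ae_restrict_of_ae (indicator_ae_eq_of_ae_eq_set Iio_ae_eq_Iic)
  have hind : ∀ m : ℝ, m ≤ B → m ≤ ∫ t in Set.Ioc 0 B, (Set.Iio m).indicator (fun _ => (1 : ℝ)) t := by
    intro m hm
    rw [integral_congr_ae (hae m), Pool.Agent.NH28.integral_ind B m hB0]
    exact le_min hm (le_max_left _ _)
  have hint : ∀ m : ℝ, IntegrableOn ((Set.Iio m).indicator (fun _ => (1 : ℝ))) (Set.Ioc 0 B) :=
    fun m => (Pool.Agent.NH28.integrable_ind B m).congr (hae m).symm
  have h1 : ∑ a, (z (β a) - c) ≤ ∑ a, ∫ t in Set.Ioc 0 B,
      (Set.Iio (z (β a) - c)).indicator (fun _ => (1 : ℝ)) t :=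
    Finset.sum_le_sum fun a _ => hind _ (hle a)
  rw [← integral_finsetSum _ fun a _ => hint _] at h1
  have h2 : ∫ t in Set.Ioc 0 B, ∑ a, (Set.Iio (z (β a) - c)).indicator (fun _ => (1 : ℝ)) t ≤
      ∫ t in Set.Ioc 0 B, ((N : ℝ) - finrank K (Fd H δ l t)) := by
    refine setIntegral_mono_on (integrable_finsetSum _ fun a _ => hint _) ?_ measurableSet_Ioc ?_
    · have hva : Antitone fun t => ((N : ℝ) - finrank K (Fd H δ l t)) := by
        intro s s' h
        have h1 := Submodule.finrank_mono (Fd_mono H δ l h)
        have h2 : (finrank K (Fd H δ l s) : ℝ) ≤ finrank K (Fd H δ l s') := by exact_mod_cast h1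
        show (N : ℝ) - finrank K (Fd H δ l s') ≤ (N : ℝ) - finrank K (Fd H δ l s)
        linarith
      exact (intervalIntegrable_iff_integrableOn_Ioc_of_le hB0).1 hva.intervalIntegrable
    · intro t ht
      have h3 := hcnt t ht.1.le
      have h4 : ∑ a, (Set.Iio (z (β a) - c)).indicator (fun _ => (1 : ℝ)) t =
          (((Finset.univ : Finset (Fin N)).filter fun a => ¬ z (β a) ≤ t + c).card : ℝ) := by
        rw [Finset.card_filter]
        push_cast
        refine Finset.sum_congr rfl fun a _ => ?_
        by_cases hc : z (β a) ≤ t + c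
        · rw [if_neg (not_not.2 hc), Set.indicator_of_notMem]
          intro h5
          have : t < z (β a) - c := h5
          linarith
        · rw [if_pos hc, Set.indicator_of_mem]
          push Not at hc
          show t < z (β a) - c
          linarith
      rw [h4]
      have h5 := Finset.card_filter_add_card_filter_not (s := (Finset.univ : Finset (Fin N)))
        (fun a => z (β a) ≤ t + c)
      rw [Finset.card_univ, Fintype.card_fin] at h5
      have h6 : (((Finset.univ : Finset (Fin N)).filter fun a => z (β a) ≤ t + c).card : ℝ) +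
          ((Finset.univ : Finset (Fin N)).filter fun a => ¬ z (β a) ≤ t + c).card = N := by
        exact_mod_cast h5
      linarith
  have h3 := Fd_int H hδ N hN l B le_rfl
  rw [intervalIntegral.integral_of_le hB0] at h3
  rw [h3] at h2
  have h4 : ∑ a, (z (β a) - c) = ∑ a, z (β a) - N * c := by
    rw [Finset.sum_sub_distrib, Finset.sum_const, Finset.card_univ, Fintype.card_fin,
      nsmul_eq_mul]
  rw [h4] at h1
  linarith

open Classical in
/-- the possible terms of the iterated filtrations -/
noncomputable def Lt (H : J → Submodule K V) : List J → Finset (Submodule K V)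
  | [] => {⊤, ⊥}
  | j :: l => Finset.image₂ (fun A B => A ⊓ H j ⊔ B) (Lt H l) (Lt H l)

omit [FiniteDimensional K V] in
lemma Fd_mem_Lt (H : J → Submodule K V) (δ : J → ℝ) (l : List J) :
    ∀ s, Fd H δ l s ∈ Lt H l := by
  classical
  induction l with
  | nil =>
    intro s
    unfold Fd Lt
    split_ifs <;> simp
  | cons j l ih =>
    intro s
    unfold Fd Lt
    convert Finset.mem_image₂_of_mem (f := fun A B => A ⊓ H j ⊔ B) (ih s) (ih (s - δ j))

end filt

end Pool.Agent.H85.W
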