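import Pool.Agent.H85.W.Place
import Pool.Graph.R_pool_sql_team_seeded_3dad9d7b.NH28.MainW

/-!
The global estimate with iterated filtrations.
-/

set_option autoImplicit false

namespace Pool.Agent.H85.W

open MvPolynomial Finset NumberField IsDedekindDomain Height Module
open Pool.Agent.W180.OP Pool.Agent.W180.TP Pool.Agent.TH875 Pool.Agent.NH28

theorem glob_ch {K : Type} [Field K] [NumberField K] {n m R M D N Jm : ℕ} (hD : 1 ≤ D)
    (hN1 : 1 ≤ N)
    (I : Ideal (MvPolynomial (Fin n) K)) (hprime : I.IsPrime) (G : Fin m → MvPolynomial (Fin n) K)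
    (hI : I = Ideal.span (Set.range G)) {Sy Q : Type} [Fintype Sy] [Fintype Q] [DecidableEq Q]
    (y : Sy → Fin R → MvPolynomial (Fin n) K) (hyh : ∀ e k, (y e k).IsHomogeneous D)
    (E : Sy → Finset (Fin n →₀ ℕ)) (hE : ∀ e, Ind I (y e) (E e))
    (idx : Sy → Fin R → Q) (hidx : ∀ e, Function.Injective (idx e))
    (sec : VM I M →ₗ[K] MvPolynomial (Fin n) K)
    (hsec : ∀ v, (sec v).IsHomogeneous M ∧ Ideal.Quotient.mkₐ K I (sec v) = v)
    (u : ∀ e, {s // s ∈ Sm D (E e) R M} → VM I M)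
    (hu : ∀ e s, (u e s : MvPolynomial (Fin n) K ⧸ I) = Ideal.Quotient.mkₐ K I (ym (y e) s.1))
    [FiniteDimensional K (VM I M)] (hN : finrank K (VM I M) = N)
    (b0 : Basis (Fin N) K (VM I M))
    (H : Q × Fin Jm → Submodule K (VM I M))
    (hH : ∀ e k (a : Fin Jm), H (idx e k, a) ≤
      Submodule.span K (u e '' {s | (a : ℕ) + 1 ≤ s.1.1 k}))
    (r : ℕ) (hr : 1 ≤ r) (C1 : ℝ) (hC1 : ThetaP K n r C1) :
    ∃ Z : MvPolynomial (Fin n) K, Z ∉ I ∧ (∃ t, Z.IsHomogeneous t) ∧ ∀ S : Finset (Pl K),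
      (∀ v : InfinitePlace K, Sum.inl v ∈ S) →
      (∀ v : HeightOneSpectrum (𝓞 K), Sum.inr v ∉ S → ∀ j β, fv v ((sec (b0 j)).coeff β) ≤ 1) →
      ∃ C c0 : ℝ, 0 ≤ C ∧ 0 ≤ c0 ∧ ∀ (L : Type) [Field L] [NumberField L] [Algebra K L],
        finrank K L ≤ r → ∀ x : Fin n → L, x ≠ 0 → (∀ k, aeval x (G k) = 0) →
        IntermediateField.adjoin K {z | ∃ i j, z = x i / x j} = ⊤ → aeval x Z ≠ 0 →
        ∀ e : Pl L → Sy, (∀ w k, aeval x (y (e w) k) ≠ 0) →
        (∀ w k, 0 ≤ wt w * lam (av w) D (bc L (y (e w) k)) x + c0) ∧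
        ∀ th : Pl K → Q × Fin Jm → ℝ, (∀ v j, 0 ≤ th v j) →
        ∑ v ∈ S, (∑ w ∈ ab L v, nn v w * bf (fun k => LL v w c0 D (y (e w) k) x) (idx (e w)) (th v) -
          finrank K L / N * ∑ j, th v j * ((N : ℝ) - finrank K (H j))) ≤
            (M + C1 + 1) * logHeight x + C := by
  classical
  have hsecinj : Function.Injective sec := by
    intro a a' h
    have h1 := (hsec a).2
    rw [h, (hsec a').2] at h1
    exact Subtype.ext h1.symm
  -- the subspace theorem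
  set Lf := Lt H Finset.univ.toList with hLf
  obtain ⟨Z0, hZ0, hsch⟩ := sch_rat (k := K) hN1 (fun (i : Ix2 Lf) j => b0.repr (ph2 Lf i) j)
  -- the family of forms
  set Fm : {z // z ∈ Z0} ⊕ Ix2 Lf ⊕ Fin N → VM I M :=
    Sum.elim (fun z => ∑ j, z.1 j • b0 j) (Sum.elim (ph2 Lf) b0) with hFm
  have hFm0 : ∀ i, Fm i ≠ 0 := by
    rintro (z | i | j)
    · intro h0
      apply hZ0 z.1 z.2
      have h1 : ∑ j, z.1 j • b0 j = 0 := h0
      funext j
      have h2 := Fintype.linearIndependent_iff.1 b0.linearIndependent z.1 h1 j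
      simpa using h2
    · exact ph2_ne Lf i
    · exact b0.ne_zero j
  have hFmI : ∀ i, sec (Fm i) ∉ I := by
    intro i hi
    apply hFm0 i
    have h1 := (hsec (Fm i)).2
    rw [Ideal.Quotient.mkₐ_eq_mk, Ideal.Quotient.eq_zero_iff_mem.2 hi] at h1
    exact Subtype.ext h1.symm
  refine ⟨∏ i, sec (Fm i), ?_, ⟨_, IsHomogeneous.prod _ _ _ fun i _ => (hsec (Fm i)).1⟩, ?_⟩
  · intro h
    obtain ⟨i, _, hi⟩ := (hprime.prod_mem_iff).1 h
    exact hFmI i hi
  intro S hS hbad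
  -- the multiplier
  set qn : ℕ := Fintype.card ({z // z ∈ Z0} ⊕ Ix2 Lf ⊕ Fin N) with hqn
  have hq0 : 0 < qn := Fintype.card_pos_iff.2 ⟨Sum.inr (Sum.inr ⟨0, hN1⟩)⟩
  set eqv := Fintype.equivFin ({z // z ∈ Z0} ⊕ Ix2 Lf ⊕ Fin N) with heqv
  obtain ⟨C2, hC20, hθ⟩ := hC1.2 M qn hq0 S hS
  -- the lower bound for the local terms
  choose Cf hCf0 hCf using fun (t : Sy × Fin R) => form_ub (y t.1 t.2) (hyh t.1 t.2)
  choose Cl hCl0 hCl using fun (t : Sy × Fin R) => liou_u (y t.1 t.2) D (hyh t.1 t.2)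
  set Qc : ℝ := (finrank ℚ K : ℝ) * r with hQ
  have hQ0 : 0 ≤ Qc := by positivity
  set c0 : ℝ := (∑ t, Cf t) * Qc with hc0
  have hCfs : 0 ≤ ∑ t, Cf t := Finset.sum_nonneg fun t _ => hCf0 t
  have hCls : 0 ≤ ∑ t, Cl t := Finset.sum_nonneg fun t _ => hCl0 t
  have hc00 : 0 ≤ c0 := mul_nonneg hCfs hQ0
  -- the places
  choose Cv hCv0 hCv using fun v : Pl K => place_ch hD I G hI y E hE idx hidx sec hsec u hu b0 hN
    H hH v r c0 hc00
  set Cp : ℝ := ∑ v ∈ S, Cv v with hCp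
  have hCp0 : 0 ≤ Cp := Finset.sum_nonneg fun v _ => hCv0 v
  set PL : ℝ := (S.card : ℝ) * (r * (R * (D + (∑ t, Cl t) * Qc + c0))) with hPL
  have hPL0 : 0 ≤ PL := by positivity
  set C3 : ℝ := M + C1 + C2 + Jm * PL + Cp with hC3
  have hC10 := hC1.1
  have hC30 : 0 ≤ C3 := by positivity
  have hr1 : (1 : ℝ) ≤ r := by exact_mod_cast hr
  set ε' : ℝ := 1 / (r * (C3 + 1)) with hε'
  have hε'0 : 0 < ε' := by positivity
  obtain ⟨C4, hC40, hsch'⟩ := hsch S ε' hε'0
  refine ⟨C1 + C2 + 1 + r * C4 + r * Cp, c0, by positivity, hc00, ?_⟩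
  intro L _ _ _ hrL x hx hGx hadj hZx e hyx
  have hfq : (finrank ℚ L : ℝ) ≤ Qc := by
    have h1 : finrank ℚ K * finrank K L = finrank ℚ L := finrank_mul_finrank ℚ K L
    rw [hQ, ← h1]
    push_cast
    exact mul_le_mul_of_nonneg_left (by exact_mod_cast hrL) (Nat.cast_nonneg _)
  have hfq0 : (0 : ℝ) ≤ finrank ℚ L := Nat.cast_nonneg _
  have hFx : ∀ i, aeval x (sec (Fm i)) ≠ 0 := by
    intro i h0
    apply hZx
    rw [map_prod]
    exact Finset.prod_eq_zero (Finset.mem_univ i) h0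
  have hpos : ∀ w k, 0 ≤ wt w * lam (av w) D (bc L (y (e w) k)) x + c0 := by
    intro w k
    have h1 := hCf (e w, k) L w x hx (hyx w k)
    have h2 : Cf (e w, k) ≤ ∑ t, Cf t :=
      Finset.single_le_sum (f := Cf) (fun t _ => hCf0 t) (Finset.mem_univ _)
    have h3 : Cf (e w, k) * finrank ℚ L ≤ (∑ t, Cf t) * Qc := mul_le_mul h2 hfq hfq0 hCfs
    have h4 : -(wt w * lam (av w) D (bc L (y (e w) k)) x) ≤ Cf (e w, k) * finrank ℚ L := h1
    rw [hc0]
    linarith
  refine ⟨hpos, fun th hth => ?_⟩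
  choose bel hbel using fun w : Pl L => exists_below (K := K) w
  set a : Pl K → Pl L → ℝ := fun v w => ∑ k, LL v w c0 D (y (e w) k) x with ha
  have ha0 : ∀ v w, 0 ≤ a v w := fun v w => Finset.sum_nonneg fun k _ =>
    div_nonneg (hpos w k) (nn_nonneg v w)
  set X : ℝ := ∑ v ∈ S, ∑ w ∈ ab L v, ∑ k, (wt w * lam (av w) D (bc L (y (e w) k)) x + c0)
    with hXdef
  have hX0 : 0 ≤ X := Finset.sum_nonneg fun v _ => Finset.sum_nonneg fun w _ =>
    Finset.sum_nonneg fun k _ => hpos w k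
  have hX : X = ∑ v ∈ S, ∑ w ∈ ab L v, nn v w * a v w := by
    refine Finset.sum_congr rfl fun v _ => Finset.sum_congr rfl fun w hw => ?_
    simp only [ha, LL]
    rw [Finset.mul_sum]
    refine Finset.sum_congr rfl fun k _ => ?_
    have : nn v w ≠ 0 := by
      have := one_le_nn (mem_ab.1 hw)
      linarith
    field_simp
  have haX : ∑ v ∈ S, ∑ w ∈ ab L v, a v w ≤ X := by
    rw [hX]
    refine Finset.sum_le_sum fun v _ => Finset.sum_le_sum fun w hw => ?_
    exact le_mul_of_one_le_left (ha0 v w) (one_le_nn (mem_ab.1 hw))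
  set b : Pl K → Pl L → ℝ := fun v w => bf (fun k => LL v w c0 D (y (e w) k) x) (idx (e w))
    (th v) with hb
  have hLL0 : ∀ v w k, 0 ≤ LL v w c0 D (y (e w) k) x := fun v w k =>
    div_nonneg (hpos w k) (nn_nonneg v w)
  have hb0 : ∀ v w, 0 ≤ b v w := fun v w => bf_nonneg _ (hLL0 v w) _ _ (hth v)
  have hb1 : ∀ v w, b v w ≤ Jm * a v w := fun v w => bf_le _ _ _
  set Xb : ℝ := ∑ v ∈ S, ∑ w ∈ ab L v, nn v w * b v w with hXb
  have hXb0 : 0 ≤ Xb := Finset.sum_nonneg fun v _ => Finset.sum_nonneg fun w _ =>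
    mul_nonneg (nn_nonneg v w) (hb0 v w)
  set h : ℝ := logHeight x with hh
  have hh0 : 0 ≤ h := logHeight_nonneg x
  set r' : ℝ := (finrank K L : ℝ) with hr'
  have hr'1 : (1 : ℝ) ≤ r' := by
    have : 0 < finrank K L := finrank_pos
    rw [hr']
    exact_mod_cast this
  have hr'r : r' ≤ r := by
    rw [hr']
    exact_mod_cast hrL
  set sc : ℝ := (S.card : ℝ) with hsc
  obtain ⟨v0⟩ : Nonempty (InfinitePlace K) := inferInstance
  have hsc1 : (1 : ℝ) ≤ sc := by
    have : 0 < S.card := Finset.card_pos.2 ⟨_, hS v0⟩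
    rw [hsc]
    exact_mod_cast this
  set Y : ℝ := M * h + C1 * (h + 1) + C2 with hY
  have hY0 : 0 ≤ Y := by positivity
  set g0 : ℝ := (Y - Xb) / (sc * r') with hg0
  have hg0' : sc * g0 * r' = Y - Xb := by
    rw [hg0]
    have : sc ≠ 0 := by linarith
    have : r' ≠ 0 := by linarith
    field_simp
  have hbelv : ∀ v, ∀ w ∈ ab L v, bel w = v := fun v w hw => ov_unique (hbel w) (mem_ab.1 hw)
  have hbeta : ∑ v ∈ S, ∑ w ∈ ab L v, nn (bel w) w * (g0 + b (bel w) w) = Y := by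
    have h1 : ∀ v ∈ S, ∑ w ∈ ab L v, nn (bel w) w * (g0 + b (bel w) w) =
        r' * g0 + ∑ w ∈ ab L v, nn v w * b v w := by
      intro v _
      rw [hr', ← sum_nn L v, Finset.sum_mul, ← Finset.sum_add_distrib]
      refine Finset.sum_congr rfl fun w hw => ?_
      rw [hbelv v w hw]
      ring
    rw [Finset.sum_congr rfl h1, Finset.sum_add_distrib, Finset.sum_const, nsmul_eq_mul]
    have h2 : (S.card : ℝ) * (r' * g0) = sc * g0 * r' := by rw [hsc]; ring
    rw [h2, hg0', ← hXb]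
    ring
  obtain ⟨θ, hθ1, hθ2, hθ3⟩ := hθ L hrL x hx hadj (fun i => aeval x (sec (Fm (eqv.symm i))))
    (fun i => hFx _) (fun w => nn (bel w) w * (g0 + b (bel w) w)) (le_of_eq hbeta.symm)
  have htr : ∀ i, Algebra.trace K L (θ * aeval x (sec (Fm i))) ≠ 0 := fun i => by
    have := hθ1 (eqv i)
    rwa [eqv.symm_apply_apply] at this
  have hθ0 : θ ≠ 0 := by
    rintro rfl
    apply htr (Sum.inr (Sum.inr ⟨0, hN1⟩))
    rw [zero_mul, map_zero]
  set z : Fin N → K := fun j => Algebra.trace K L (θ * aeval x (sec (b0 j))) with hz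
  have hzj : ∀ j, z j ≠ 0 := fun j => htr (Sum.inr (Sum.inr j))
  have hz0 : z ≠ 0 := fun h0 => hzj ⟨0, hN1⟩ (congrFun h0 _)
  have hlin : ∀ g : VM I M, Algebra.trace K L (θ * aeval x (sec g)) =
      ∑ j, b0.repr g j * z j := by
    intro g
    have h1 : sec g = ∑ j, b0.repr g j • sec (b0 j) := by
      conv_lhs => rw [← b0.sum_repr g]
      rw [map_sum]
      exact Finset.sum_congr rfl fun j _ => map_smul _ _ _
    rw [h1, map_sum, Finset.mul_sum, map_sum]
    refine Finset.sum_congr rfl fun j _ => ?_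
    rw [map_smul, mul_smul_comm, map_smul, smul_eq_mul]
  -- the places of `S`
  set cc : Pl K → ℝ := fun v => ∑ j, th v j * ((N : ℝ) - finrank K (H j)) with hcc
  have hkey : ∀ v ∈ S, (∀ j, wt v * Real.log (av v (z j)) ≤
      g0 + ∑ w ∈ ab L v, b v w + Cv v) ∧
      ∃ β : Fin N → Ix2 Lf, LinearIndependent K (fun a => ph2 Lf (β a)) ∧
        ∑ i, wt v * Real.log (av v (∑ j, b0.repr (ph2 Lf (β i)) j * z j)) ≤
          N * (g0 + Cv v) + cc v := by
    intro v hv
    obtain ⟨h1, β, hβ, h2⟩ := hCv v L hrL x hx hGx e hyx hpos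
      (fun i => hFx (Sum.inr (Sum.inl i))) θ g0 (th v) hθ0 (hth v) (fun w hw => by
        have h3 := hθ2 v hv w hw
        simp only [hbelv v w hw] at h3
        exact h3) (fun i => htr (Sum.inr (Sum.inl i)))
    refine ⟨fun j => ?_, β, hβ, ?_⟩
    · exact h1 j (hFx (Sum.inr (Sum.inr j))) (htr (Sum.inr (Sum.inr j)))
    · simp only [hlin] at h2
      exact h2
  have hne : Nonempty (Ix2 Lf) := by
    obtain ⟨-, β, -, -⟩ := hkey _ (hS v0)
    exact ⟨β ⟨0, hN1⟩⟩
  obtain ⟨i0⟩ := hne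
  have hkey2 : ∀ v, ∃ β : Fin N → Ix2 Lf, v ∈ S → LinearIndependent K (fun a => ph2 Lf (β a)) ∧
        ∑ i, wt v * Real.log (av v (∑ j, b0.repr (ph2 Lf (β i)) j * z j)) ≤
          N * (g0 + Cv v) + cc v := by
    intro v
    by_cases hv : v ∈ S
    · obtain ⟨-, β, h1, h2⟩ := hkey v hv
      exact ⟨β, fun _ => ⟨h1, h2⟩⟩
    · exact ⟨fun _ => i0, fun h => absurd h hv⟩
  choose β hβ using hkey2
  have hs1 := hsch' z hz0 (fun z' hz' => by
    have h1 := htr (Sum.inl ⟨z', hz'⟩)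
    rw [hlin] at h1
    have h2 : ∑ j, b0.repr (Fm (Sum.inl ⟨z', hz'⟩)) j * z j = ∑ j, z' j * z j := by
      refine Finset.sum_congr rfl fun j _ => ?_
      congr 1
      show b0.repr (∑ j, z' j • b0 j) j = z' j
      rw [b0.repr_sum_self]
    rw [h2] at h1
    exact h1) (fun i => by
    have h1 := htr (Sum.inr (Sum.inl i))
    rw [hlin] at h1
    exact h1) β (fun v hv => by
    have h1 := (hβ v hv).1.map' b0.equivFun.toLinearMap b0.equivFun.ker
    exact h1)
  set hz' : ℝ := logHeight z with hhz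
  have hhz0 : 0 ≤ hz' := logHeight_nonneg z
  have hsum1 : hz' ≤ ∑ v ∈ S, wt v * Real.log (nrm (av v) z) := by
    refine height_le_sum hz0 S hS fun v hv j => ?_
    refine int_trace (sec (b0 j)) (hsec (b0 j)).1 v (hbad v hv j) x θ fun w hw => ?_
    exact hθ3 _ hv w hw
  -- the height of `z`
  have hsum2 : ∀ v ∈ S, wt v * Real.log (nrm (av v) z) ≤
      g0 + ∑ w ∈ ab L v, b v w + Cv v := by
    intro v hv
    obtain ⟨j, hj⟩ := exists_nrm (av v) hN1 z
    rw [← hj]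
    exact (hkey v hv).1 j
  have hz3a : hz' ≤ sc * g0 + ∑ v ∈ S, ∑ w ∈ ab L v, b v w + Cp := by
    refine hsum1.trans ((Finset.sum_le_sum hsum2).trans (le_of_eq ?_))
    rw [Finset.sum_add_distrib, Finset.sum_add_distrib, Finset.sum_const, nsmul_eq_mul]
  have hbX : ∑ v ∈ S, ∑ w ∈ ab L v, b v w ≤ Jm * X := by
    refine le_trans ?_ (mul_le_mul_of_nonneg_left haX (Nat.cast_nonneg Jm))
    rw [Finset.mul_sum]
    refine Finset.sum_le_sum fun v _ => ?_
    rw [Finset.mul_sum]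
    exact Finset.sum_le_sum fun w _ => hb1 v w
  have hscg : sc * g0 ≤ Y := by
    have h1 : sc * g0 * r' ≤ Y := by
      rw [hg0']
      linarith
    rcases le_total 0 (sc * g0) with h2 | h2
    · exact (le_mul_of_one_le_right h2 hr'1).trans h1
    · linarith
  have hXle : X ≤ PL * (h + 1) := by
    have h1 : ∀ w k, wt w * lam (av w) D (bc L (y (e w) k)) x + c0 ≤
        (D + (∑ t, Cl t) * Qc + c0) * (h + 1) := by
      intro w k
      have h2 := hCl (e w, k) L {w} x hx (hyx w k)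
      rw [Finset.sum_singleton] at h2
      have h3 : Cl (e w, k) ≤ ∑ t, Cl t :=
        Finset.single_le_sum (f := Cl) (fun t _ => hCl0 t) (Finset.mem_univ _)
      have h4 : Cl (e w, k) * finrank ℚ L ≤ (∑ t, Cl t) * Qc := mul_le_mul h3 hfq hfq0 hCls
      have h5 : wt w * lam (av w) D (bc L (y (e w) k)) x ≤
          wt w * max 0 (lam (av w) D (bc L (y (e w) k)) x) :=
        mul_le_mul_of_nonneg_left (le_max_right _ _) (wt_nonneg w)
      have h6 : (D : ℝ) * h ≤ D * (h + 1) :=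
        mul_le_mul_of_nonneg_left (by linarith) (Nat.cast_nonneg _)
      have h7 : (∑ t, Cl t) * Qc + c0 ≤ ((∑ t, Cl t) * Qc + c0) * (h + 1) :=
        le_mul_of_one_le_right (by positivity) (by linarith)
      have h8 : (D + (∑ t, Cl t) * Qc + c0) * (h + 1) =
        D * (h + 1) + ((∑ t, Cl t) * Qc + c0) * (h + 1) := by ring
      rw [h8]
      have h9 : wt w * max 0 (lam (av w) D (bc L (y (e w) k)) x) ≤
        D * h + Cl (e w, k) * finrank ℚ L := h2
      linarith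
    set c5 : ℝ := (D + (∑ t, Cl t) * Qc + c0) * (h + 1) with hc5
    have hc50 : 0 ≤ c5 := by positivity
    have h2 : ∀ v ∈ S, ∑ w ∈ ab L v, ∑ k, (wt w * lam (av w) D (bc L (y (e w) k)) x + c0) ≤
        r * (R * c5) := by
      intro v _
      have h3 : ∑ w ∈ ab L v, ∑ k, (wt w * lam (av w) D (bc L (y (e w) k)) x + c0) ≤
          ∑ _w ∈ ab L v, (R : ℝ) * c5 := by
        refine Finset.sum_le_sum fun w _ => ?_
        refine (Finset.sum_le_sum fun k _ => h1 w k).trans (le_of_eq ?_)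
        rw [Finset.sum_const, Finset.card_univ, Fintype.card_fin, nsmul_eq_mul]
      refine h3.trans ?_
      rw [Finset.sum_const, nsmul_eq_mul]
      refine mul_le_mul_of_nonneg_right ?_ (by positivity)
      exact_mod_cast (card_ab_le L v).trans hrL
    refine (Finset.sum_le_sum h2).trans (le_of_eq ?_)
    rw [Finset.sum_const, nsmul_eq_mul, hPL, hc5]
    ring
  have hz3 : hz' ≤ C3 * (h + 1) := by
    have h1 : ∑ v ∈ S, ∑ w ∈ ab L v, b v w ≤ Jm * (PL * (h + 1)) :=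
      hbX.trans (mul_le_mul_of_nonneg_left hXle (Nat.cast_nonneg Jm))
    have h2 : C3 * (h + 1) = Y + Jm * (PL * (h + 1)) + Cp + (M + C2 * h + Cp * h) := by
      rw [hC3, hY]
      ring
    have h3 : 0 ≤ (M : ℝ) + C2 * h + Cp * h := by positivity
    rw [h2]
    linarith
  -- the main inequality
  set A : ℝ := ∑ v ∈ S, cc v with hA
  have hN1' : (1 : ℝ) ≤ N := by exact_mod_cast hN1
  have hA1 : (N : ℝ) * ∑ v ∈ S, (∑ w ∈ ab L v, nn v w *
      bf (fun k => LL v w c0 D (y (e w) k) x) (idx (e w)) (th v) -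
          finrank K L / N * ∑ j, th v j * ((N : ℝ) - finrank K (H j))) = N * Xb - r' * A := by
    rw [hA, hXb, Finset.mul_sum, Finset.mul_sum, Finset.mul_sum, ← Finset.sum_sub_distrib]
    refine Finset.sum_congr rfl fun v _ => ?_
    have hN0 : (N : ℝ) ≠ 0 := by linarith
    have h1 : ∀ a c : ℝ, (N : ℝ) * (a - r' / N * c) = N * a - r' * c := by
      intro a c
      field_simp
    exact h1 _ _
  have hmain : N * hz' ≤ (N + ε') * hz' + C4 + (N * (sc * g0 + Cp) + A) := by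
    have h1 : ∑ v ∈ S, wt v * ∑ i, (Real.log (nrm (av v) z) -
        Real.log (av v (∑ j, b0.repr (ph2 Lf (β v i)) j * z j))) =
        N * ∑ v ∈ S, wt v * Real.log (nrm (av v) z) -
        ∑ v ∈ S, ∑ i, wt v * Real.log (av v (∑ j, b0.repr (ph2 Lf (β v i)) j * z j)) := by
      rw [Finset.mul_sum, ← Finset.sum_sub_distrib]
      refine Finset.sum_congr rfl fun v _ => ?_
      rw [Finset.sum_sub_distrib, Finset.sum_const, Finset.card_univ, Fintype.card_fin,
        nsmul_eq_mul, mul_sub, Finset.mul_sum]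
      ring
    have h2 : ∑ v ∈ S, ∑ i, wt v * Real.log (av v (∑ j, b0.repr (ph2 Lf (β v i)) j * z j)) ≤
        N * (sc * g0 + Cp) + A := by
      refine (Finset.sum_le_sum fun v hv => (hβ v hv).2).trans (le_of_eq ?_)
      rw [Finset.sum_add_distrib, ← Finset.mul_sum, Finset.sum_add_distrib, Finset.sum_const,
        nsmul_eq_mul]
    have h3 : (N : ℝ) * hz' ≤ N * ∑ v ∈ S, wt v * Real.log (nrm (av v) z) :=
      mul_le_mul_of_nonneg_left hsum1 (Nat.cast_nonneg _)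
    rw [h1] at hs1
    linarith
  exact final_ineq2 hN1' hr1 hr'1 hr'r hh0 hC30 hC40 hCp0 hhz0 hY hε' hg0' hA1 hz3 hmain



end Pool.Agent.H85.W
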