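import Pool.Graph.R_pool_sql_team_seeded_3dad9d7b.NH28.Bas

/-!
Distribution functions and truncations.
-/

set_option autoImplicit false

namespace Pool.Agent.H85.W

open Finset MeasureTheory

variable {σ : Type}

open Classical in
/-- the proportion of the places with value at least `t` -/
noncomputable def PP (W : Finset σ) (nw : σ → ℝ) (d : ℝ) (Λ : σ → ℝ) (t : ℝ) : ℝ :=
  (∑ w ∈ W.filter (fun w => t ≤ Λ w), nw w) / d

section basic

variable (W : Finset σ) (nw : σ → ℝ) (hn : ∀ w ∈ W, 0 ≤ nw w) (d : ℝ) (hd : 0 < d) (Λ : σ → ℝ)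

include hn hd

lemma PP_anti : Antitone (PP W nw d Λ) := by
  classical
  intro s t hst
  unfold PP
  refine div_le_div_of_nonneg_right ?_ hd.le
  refine Finset.sum_le_sum_of_subset_of_nonneg ?_ ?_
  · intro w hw
    rw [Finset.mem_filter] at hw ⊢
    exact ⟨hw.1, hst.trans hw.2⟩
  · intro w hw _
    exact hn w (Finset.mem_filter.1 hw).1

lemma PP_nonneg (t : ℝ) : 0 ≤ PP W nw d Λ t := by
  classical
  unfold PP
  exact div_nonneg (Finset.sum_nonneg fun w hw => hn w (Finset.mem_filter.1 hw).1) hd.le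

lemma PP_le_one (hsum : ∑ w ∈ W, nw w = d) (t : ℝ) : PP W nw d Λ t ≤ 1 := by
  classical
  unfold PP
  rw [div_le_one hd, ← hsum]
  exact Finset.sum_le_sum_of_subset_of_nonneg (Finset.filter_subset _ _) fun w hw _ => hn w hw

omit hn hd in
lemma PP_zero (t : ℝ) (ht : ∀ w ∈ W, Λ w < t) : PP W nw d Λ t = 0 := by
  classical
  unfold PP
  rw [Finset.filter_eq_empty_iff.2, Finset.sum_empty, zero_div]
  intro w hw
  have := ht w hw
  push Not
  exact this

lemma PP_integrable (hsum : ∑ w ∈ W, nw w = d) (f : ℝ → ℝ) (hf : Measurable f) (Cb : ℝ)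
    (hfb : ∀ s, 0 ≤ s → s ≤ 1 → |f s| ≤ Cb) (hf0 : f 0 = 0) :
    IntegrableOn (fun t => f (PP W nw d Λ t)) (Set.Ioi 0) := by
  classical
  obtain ⟨B, hB0, hB⟩ : ∃ B : ℝ, 0 ≤ B ∧ ∀ w ∈ W, Λ w ≤ B := by
    refine ⟨∑ w ∈ W, |Λ w|, Finset.sum_nonneg fun w _ => abs_nonneg _, fun w hw => ?_⟩
    exact (le_abs_self _).trans (Finset.single_le_sum (f := fun w => |Λ w|)
      (fun w _ => abs_nonneg _) hw)
  have hmeas : Measurable fun t => f (PP W nw d Λ t) :=
    hf.comp (PP_anti W nw hn d hd Λ).measurable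
  have h1 : IntegrableOn (fun t => f (PP W nw d Λ t)) (Set.Ioc 0 B) := by
    refine Measure.integrableOn_of_bounded (M := Cb) (by simp) hmeas.aestronglyMeasurable ?_
    refine Filter.Eventually.of_forall fun t => ?_
    rw [Real.norm_eq_abs]
    exact hfb _ (PP_nonneg W nw hn d hd Λ t) (PP_le_one W nw hn d hd Λ hsum t)
  have h2 : IntegrableOn (fun t => f (PP W nw d Λ t)) (Set.Ioi B) := by
    have h3 : IntegrableOn (fun _ : ℝ => (0 : ℝ)) (Set.Ioi B) := integrableOn_zero
    refine h3.congr_fun (fun t ht => ?_) measurableSet_Ioi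
    show (0 : ℝ) = f (PP W nw d Λ t)
    rw [PP_zero W nw d Λ t fun w hw => lt_of_le_of_lt (hB w hw) ht, hf0]
  have h3 := h1.union h2
  rwa [Set.Ioc_union_Ioi_eq_Ioi hB0] at h3

/-- the best truncation -/
theorem quant (hΛ : ∀ w ∈ W, 0 ≤ Λ w) (κ : ℝ) (hκ : 0 ≤ κ) :
    ∃ θ : ℝ, 0 ≤ θ ∧ d * ∫ t in Set.Ioi (0 : ℝ), max (PP W nw d Λ t - κ) 0 ≤
      ∑ w ∈ W, nw w * min (Λ w) θ - d * κ * θ := by
  classical
  set A : Finset σ := W.filter fun w => κ < PP W nw d Λ (Λ w) with hA
  set B : Finset ℝ := insert 0 (A.image Λ) with hB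
  have hBne : B.Nonempty := Finset.insert_nonempty _ _
  set θ : ℝ := B.max' hBne with hθ
  have hθ0 : 0 ≤ θ := Finset.le_max' B 0 (Finset.mem_insert_self _ _)
  have hθA : ∀ w ∈ A, Λ w ≤ θ := fun w hw =>
    Finset.le_max' B _ (Finset.mem_insert_of_mem (Finset.mem_image_of_mem _ hw))
  -- large `t`
  have hlarge : ∀ t, θ < t → PP W nw d Λ t ≤ κ := by
    intro t ht
    by_contra hcon
    push Not at hcon
    have hne : (W.filter fun w => t ≤ Λ w).Nonempty := by
      by_contra hemp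
      rw [Finset.not_nonempty_iff_eq_empty] at hemp
      have h1 : PP W nw d Λ t = 0 := by
        unfold PP
        rw [hemp, Finset.sum_empty, zero_div]
      linarith
    obtain ⟨w', hw', hmin⟩ := Finset.exists_min_image _ Λ hne
    rw [Finset.mem_filter] at hw'
    have h1 : PP W nw d Λ (Λ w') = PP W nw d Λ t := by
      unfold PP
      congr 1
      refine Finset.sum_congr ?_ fun _ _ => rfl
      ext w
      simp only [Finset.mem_filter]
      constructor
      · rintro ⟨h2, h3⟩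
        exact ⟨h2, hw'.2.trans h3⟩
      · rintro ⟨h2, h3⟩
        exact ⟨h2, hmin w (Finset.mem_filter.2 ⟨h2, h3⟩)⟩
    have h2 : w' ∈ A := by
      rw [hA, Finset.mem_filter]
      exact ⟨hw'.1, by rw [h1]; exact hcon⟩
    have := hθA w' h2
    linarith [hw'.2]
  -- small `t`
  have hsmall : ∀ t, 0 < t → t ≤ θ → κ < PP W nw d Λ t := by
    intro t ht0 ht
    have h1 : θ ∈ B := Finset.max'_mem B hBne
    rw [hB, Finset.mem_insert] at h1
    rcases h1 with h1 | h1
    · linarith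
    · obtain ⟨w, hw, hwθ⟩ := Finset.mem_image.1 h1
      have h2 := (Finset.mem_filter.1 hw).2
      rw [hwθ] at h2
      exact lt_of_lt_of_le h2 (PP_anti W nw hn d hd Λ ht)
  refine ⟨θ, hθ0, le_of_eq ?_⟩
  have e1 : ∫ t in Set.Ioi (0 : ℝ), max (PP W nw d Λ t - κ) 0 =
      ∫ t in Set.Ioc 0 θ, (PP W nw d Λ t - κ) := by
    rw [← Set.Ioc_union_Ioi_eq_Ioi hθ0, setIntegral_union (Set.Ioc_disjoint_Ioi le_rfl)
      measurableSet_Ioi]
    · have h1 : ∫ t in Set.Ioi θ, max (PP W nw d Λ t - κ) 0 = ∫ _t in Set.Ioi θ, (0 : ℝ) :=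
        setIntegral_congr_fun measurableSet_Ioi fun t ht => by
          have := hlarge t ht
          show max (PP W nw d Λ t - κ) 0 = 0
          exact max_eq_right (by linarith)
      have h2 : ∫ t in Set.Ioc 0 θ, max (PP W nw d Λ t - κ) 0 =
          ∫ t in Set.Ioc 0 θ, (PP W nw d Λ t - κ) :=
        setIntegral_congr_fun measurableSet_Ioc fun t ht => by
          have := hsmall t ht.1 ht.2
          show max (PP W nw d Λ t - κ) 0 = PP W nw d Λ t - κ
          exact max_eq_left (by linarith)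
      rw [h1, h2, integral_zero, add_zero]
    · have h3 : Antitone fun t => max (PP W nw d Λ t - κ) 0 := by
        intro s t hst
        have := PP_anti W nw hn d hd Λ hst
        exact max_le_max (by linarith) le_rfl
      exact (intervalIntegrable_iff_integrableOn_Ioc_of_le hθ0).1 h3.intervalIntegrable
    · have h3 : IntegrableOn (fun _ : ℝ => (0 : ℝ)) (Set.Ioi θ) := integrableOn_zero
      refine h3.congr_fun (fun t ht => ?_) measurableSet_Ioi
      have := hlarge t ht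
      show (0 : ℝ) = max (PP W nw d Λ t - κ) 0
      exact (max_eq_right (by linarith)).symm
  rw [e1]
  have e2 : ∀ t, PP W nw d Λ t = ∑ w ∈ W, nw w / d * (Set.Iic (Λ w)).indicator (fun _ => (1 : ℝ)) t := by
    intro t
    unfold PP
    rw [Finset.sum_div, Finset.sum_filter]
    refine Finset.sum_congr rfl fun w _ => ?_
    by_cases h : t ≤ Λ w
    · rw [if_pos h, Set.indicator_of_mem (Set.mem_Iic.2 h), mul_one]
    · rw [if_neg h, Set.indicator_of_notMem (fun h' => h (Set.mem_Iic.1 h')), mul_zero]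
  have hcon : IntegrableOn (fun _ : ℝ => κ) (Set.Ioc 0 θ) := integrableOn_const (by simp)
  have hi : ∀ w ∈ W, IntegrableOn (fun t => nw w / d *
      (Set.Iic (Λ w)).indicator (fun _ => (1 : ℝ)) t) (Set.Ioc 0 θ) := fun w _ =>
    (Pool.Agent.NH28.integrable_ind θ (Λ w)).const_mul _
  simp only [e2]
  rw [integral_sub (integrable_finsetSum _ hi) hcon, integral_finsetSum _ hi, setIntegral_const,
    Real.volume_real_Ioc_of_le hθ0, sub_zero, smul_eq_mul, mul_sub, Finset.mul_sum]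
  congr 1
  · refine Finset.sum_congr rfl fun w hw => ?_
    rw [integral_const_mul, Pool.Agent.NH28.integral_ind θ (Λ w) hθ0, max_eq_left (hΛ w hw),
      min_comm]
    field_simp
  · ring

/-- the gain for one divisor -/
theorem gain_one (hsum : ∑ w ∈ W, nw w = d) (hΛ : ∀ w ∈ W, 0 ≤ Λ w) {Jm : ℕ} (κ : Fin Jm → ℝ)
    (hκ : ∀ m, 0 ≤ κ m) (V : ℝ → ℝ) (hV : Measurable V) (Cb : ℝ)
    (hVb : ∀ s, 0 ≤ s → s ≤ 1 → |V s| ≤ Cb) (hV0 : V 0 = 0) (a : ℝ)
    (hVκ : ∀ t, a * V (PP W nw d Λ t) ≤ ∑ m, max (PP W nw d Λ t - κ m) 0) :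
    ∃ θ : Fin Jm → ℝ, (∀ m, 0 ≤ θ m) ∧
      a * (d * ∫ t in Set.Ioi (0 : ℝ), V (PP W nw d Λ t)) ≤
        ∑ m, (∑ w ∈ W, nw w * min (Λ w) (θ m) - d * κ m * θ m) := by
  choose θ hθ0 hθ using fun m => quant W nw hn d hd Λ hΛ (κ m) (hκ m)
  refine ⟨θ, hθ0, le_trans ?_ (Finset.sum_le_sum fun m _ => hθ m)⟩
  rw [← Finset.mul_sum]
  have hi : ∀ m ∈ (Finset.univ : Finset (Fin Jm)),
      IntegrableOn (fun t => max (PP W nw d Λ t - κ m) 0) (Set.Ioi 0) := by
    intro m _
    refine PP_integrable W nw hn d hd Λ hsum (fun s => max (s - κ m) 0)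
      ((measurable_id.sub_const _).max measurable_const) 1 ?_ ?_
    · intro s hs0 hs1
      have := hκ m
      rw [abs_of_nonneg (le_max_right _ _)]
      exact max_le (by linarith) zero_le_one
    · have := hκ m
      exact max_eq_right (by linarith)
  rw [← integral_finsetSum _ hi]
  have hiV := PP_integrable W nw hn d hd Λ hsum V hV Cb hVb hV0
  have h1 : ∫ t in Set.Ioi (0 : ℝ), a * V (PP W nw d Λ t) ≤
      ∫ t in Set.Ioi (0 : ℝ), ∑ m, max (PP W nw d Λ t - κ m) 0 :=
    setIntegral_mono_on (hiV.const_mul a) (integrable_finsetSum _ hi) measurableSet_Ioi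
      fun t _ => hVκ t
  rw [integral_const_mul] at h1
  have h2 := mul_le_mul_of_nonneg_left h1 hd.le
  have e : a * (d * ∫ t in Set.Ioi (0 : ℝ), V (PP W nw d Λ t)) =
    d * (a * ∫ t in Set.Ioi (0 : ℝ), V (PP W nw d Λ t)) := by ring
  rw [e]
  exact h2

end basic

end Pool.Agent.H85.W
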