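import Pool.Agent.H85.W.Glob
import Pool.Agent.H85.W.Quant
import Pool.Graph.R_pool_sql_team_seeded_3dad9d7b.NH28.AsyR

/-!
The main inequality for several systems of forms.
-/

set_option autoImplicit false

namespace Pool.Agent.H85.W

open MvPolynomial Finset NumberField IsDedekindDomain Height Module Filter Topology MeasureTheory
open Pool.Agent.W180.OP Pool.Agent.W180.TP
open Pool.Agent.TH875 (VM VM_finite Sm mem_Sm Ind ind_ne exists_sec module_main alg_ind ym ym_hom dg)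
open Pool.Agent.NH28

/-- the value of a proportion -/
noncomputable def Vf (ν : ℕ) (s : ℝ) : ℝ :=
  (s - ν * (1 - s) * (1 - (1 - s) ^ (1 / (ν : ℝ)))) / (ν + 1)

lemma Vf_zero (ν : ℕ) : Vf ν 0 = 0 := by
  unfold Vf
  rw [sub_zero, Real.one_rpow]
  simp

lemma Vf_eq (ν : ℕ) {ρ : ℝ} (hρ : 1 ≤ ρ) : Vf ν (1 / ρ) = 1 / ρ / cstR ν ρ := by
  have hρ0 : ρ ≠ 0 := by linarith
  have hν : (ν : ℝ) + 1 ≠ 0 := by positivity
  unfold Vf cstR
  rw [div_div_eq_mul_div]
  congr 1
  field_simp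

lemma Vf_meas (ν : ℕ) : Measurable (Vf ν) := by
  unfold Vf
  fun_prop

lemma Vf_nonneg {ν : ℕ} (hν : 1 ≤ ν) {s : ℝ} (hs0 : 0 ≤ s) (hs1 : s ≤ 1) : 0 ≤ Vf ν s := by
  rcases hs0.eq_or_lt with h | h
  · rw [← h, Vf_zero]
  · have h1 : 1 ≤ 1 / s := by
      rw [le_div_iff₀ h]
      linarith
    have h2 := Vf_eq ν h1
    rw [one_div_one_div] at h2
    rw [h2]
    have h3 := one_le_cstR hν h1
    have h4 : (0 : ℝ) ≤ ν := Nat.cast_nonneg _
    exact div_nonneg h.le (by linarith)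

lemma Vf_le {ν : ℕ} {s : ℝ} (hs0 : 0 ≤ s) (hs1 : s ≤ 1) : |Vf ν s| ≤ 1 := by
  have hν : (0 : ℝ) < (ν : ℝ) + 1 := by positivity
  have hν0 : (0 : ℝ) ≤ ν := Nat.cast_nonneg _
  unfold Vf
  rw [abs_div, abs_of_pos hν, div_le_one hν]
  have h1 : 0 ≤ (1 - s) ^ (1 / (ν : ℝ)) := Real.rpow_nonneg (by linarith) _
  have h2 : (1 - s) ^ (1 / (ν : ℝ)) ≤ 1 := Real.rpow_le_one (by linarith) (by linarith)
    (by positivity)
  set c : ℝ := (1 - s) ^ (1 / (ν : ℝ)) with hc
  have h3 : 0 ≤ (ν : ℝ) * (1 - s) * (1 - c) :=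
    mul_nonneg (mul_nonneg hν0 (by linarith)) (by linarith)
  have h4 : (ν : ℝ) * (1 - s) * (1 - c) ≤ ν * 1 * 1 := by
    refine mul_le_mul (mul_le_mul_of_nonneg_left (by linarith) hν0) (by linarith) (by linarith)
      (by positivity)
  rw [abs_le]
  constructor <;> linarith

/-- the local terms of one divisor in several systems -/
noncomputable def Lam {K L : Type} [Field K] [NumberField K] [Field L] [NumberField L]
    [Algebra K L] {n R : ℕ} {Q : Type} [DecidableEq Q] (v : Pl K) (c0 : ℝ) (D : ℕ)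
    (Y : Q → MvPolynomial (Fin n) K) (x : Fin n → L) (ix : Pl L → Fin R → Q) (i : Q)
    (w : Pl L) : ℝ :=
  ∑ k, if ix w k = i then LL v w c0 D (Y i) x else 0

lemma sum_idx {R : ℕ} {Q : Type} [Fintype Q] [DecidableEq Q] (ix : Fin R → Q)
    (hix : Function.Injective ix) (Λ : Q → ℝ) (f : Q → ℝ → ℝ) (hf : ∀ i, f i 0 = 0) :
    ∑ k, f (ix k) (Λ (ix k)) = ∑ i, f i (∑ k, if ix k = i then Λ i else 0) := by
  classical
  have h1 : ∀ k, ∑ k', (if ix k' = ix k then Λ (ix k) else 0) = Λ (ix k) := by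
    intro k
    rw [Finset.sum_eq_single k]
    · rw [if_pos rfl]
    · intro k' _ hne
      rw [if_neg fun h => hne (hix h)]
    · intro h
      exact absurd (Finset.mem_univ k) h
  have h2 : ∑ i, f i (∑ k, if ix k = i then Λ i else 0) =
      ∑ i ∈ Finset.univ.image ix, f i (∑ k, if ix k = i then Λ i else 0) := by
    symm
    refine Finset.sum_subset (Finset.subset_univ _) fun i _ hi => ?_
    have h3 : ∑ k, (if ix k = i then Λ i else 0) = 0 := Finset.sum_eq_zero fun k _ => by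
      rw [if_neg]
      intro h
      exact hi (Finset.mem_image.2 ⟨k, Finset.mem_univ k, h⟩)
    rw [h3, hf]
  rw [h2, Finset.sum_image fun a _ b _ h => hix h]
  exact Finset.sum_congr rfl fun k _ => by rw [h1]

lemma PP_val {K L : Type} [Field K] [NumberField K] [Field L] [NumberField L] [Algebra K L]
    {r : ℕ} (hr : finrank K L ≤ r) (v : Pl K) (Λ : Pl L → ℝ) (t : ℝ) :
    PP (ab L v) (nn v) (finrank K L) Λ t = 0 ∨
      ∃ ρ ∈ RR r, PP (ab L v) (nn v) (finrank K L) Λ t = 1 / ρ := by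
  classical
  have hd : 0 < finrank K L := finrank_pos
  have hdR : (0 : ℝ) < finrank K L := by exact_mod_cast hd
  have h1 : ∀ w : Pl L, ∃ b : ℕ, w ∈ ab L v → nn v w = b := by
    intro w
    by_cases hw : w ∈ ab L v
    · obtain ⟨b, hb, -, -⟩ := nn_nat hw
      exact ⟨b, fun _ => hb⟩
    · exact ⟨0, fun h => absurd h hw⟩
  choose b hb using h1
  set β : ℕ := ∑ w ∈ (ab L v).filter (fun w => t ≤ Λ w), b w with hβ
  have h2 : PP (ab L v) (nn v) (finrank K L) Λ t = (β : ℝ) / finrank K L := by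
    unfold PP
    rw [hβ]
    push_cast
    congr 1
    exact Finset.sum_congr rfl fun w hw => hb w (Finset.mem_filter.1 hw).1
  have h3 := PP_le_one (ab L v) (nn v) (fun w _ => nn_nonneg v w) (finrank K L) hdR Λ
    (sum_nn L v) t
  rw [h2] at h3 ⊢
  rcases Nat.eq_zero_or_pos β with h0 | h0
  · left
    rw [h0]
    simp
  · right
    have hβR : (0 : ℝ) < β := by exact_mod_cast h0
    rw [div_le_one hdR] at h3
    refine ⟨(finrank K L : ℝ) / β, ⟨finrank K L, β, h0, by exact_mod_cast h3, hr, rfl⟩, ?_⟩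
    rw [one_div_div]

theorem main_ch {K : Type} [Field K] [NumberField K] {n m ν r D : ℕ} (hν : 1 ≤ ν) (hr : 1 ≤ r)
    (hD : 1 ≤ D) (G : Fin m → MvPolynomial (Fin n) K) (g : Fin m → ℕ)
    (hG : ∀ k, (G k).IsHomogeneous (g k))
    (hprime : (Ideal.span (Set.range G)).IsPrime)
    (htr : Algebra.trdeg K (MvPolynomial (Fin n) K ⧸ Ideal.span (Set.range G)) = (ν + 1 : ℕ))
    {Sy Q : Type} [Fintype Sy] [Nonempty Sy] [Fintype Q] [DecidableEq Q]
    (Y : Q → MvPolynomial (Fin n) K) (hYh : ∀ i, (Y i).IsHomogeneous D)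
    (idx : Sy → Fin (ν + 1) → Q) (hidx : ∀ e, Function.Injective (idx e))
    (hcov : ∀ i, ∃ e k, idx e k = i)
    (h0y : ∀ e, ∀ (L : Type) [Field L] [Algebra K L] (x : Fin n → L),
      (∀ k, aeval x (G k) = 0) → (∀ k, aeval x (Y (idx e k)) = 0) → x = 0)
    (ε : ℝ) (hε : 0 < ε) :
    ∃ Z : MvPolynomial (Fin n) K, Z ∉ Ideal.span (Set.range G) ∧ (∃ t, Z.IsHomogeneous t) ∧
      ∀ S : Finset (Pl K), ∃ C c0 : ℝ, 0 ≤ C ∧ 0 ≤ c0 ∧
        ∀ (L : Type) [Field L] [NumberField L] [Algebra K L],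
        finrank K L ≤ r → ∀ x : Fin n → L, x ≠ 0 → (∀ k, aeval x (G k) = 0) →
        IntermediateField.adjoin K {z | ∃ i j, z = x i / x j} = ⊤ → aeval x Z ≠ 0 →
        ∀ e : Pl L → Sy, (∀ w k, aeval x (Y (idx (e w) k)) ≠ 0) →
        (∀ w k, 0 ≤ wt w * lam (av w) D (bc L (Y (idx (e w) k))) x + c0) ∧
        ∑ v ∈ S, ∑ i, finrank K L * ∫ t in Set.Ioi (0 : ℝ), Vf ν (PP (ab L v) (nn v)
          (finrank K L) (Lam v c0 D Y x (fun w => idx (e w)) i) t) ≤
          D * (1 + ε) * logHeight x + C := by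
  classical
  set y : Sy → Fin (ν + 1) → MvPolynomial (Fin n) K := fun e k => Y (idx e k) with hy
  have hyh : ∀ e k, (y e k).IsHomogeneous D := fun e k => hYh _
  obtain ⟨I, hI⟩ : ∃ I, I = Ideal.span (Set.range G) := ⟨_, rfl⟩
  have halg : ∀ e, AlgebraicIndependent K (fun k => Ideal.Quotient.mkₐ K I (y e k)) := by
    intro e
    subst hI
    exact alg_ind G g hG D hD (y e) (hyh e) (h0y e) hprime htr
  have hmod : ∀ e, ∃ (E : Finset (Fin n →₀ ℕ)) (t0 : ℕ), Ind I (y e) E ∧ ∀ t, t0 ≤ t →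
      ∀ M, Module.finrank K (VM I M) ≤ (Sm D E (ν + 1) (M + D * t)).card := by
    intro e
    have halge := halg e
    subst hI
    exact module_main G g hG D hD (y e) (hyh e) 0 (h0y e) hprime halge
  choose E t0 hE hcount using hmod
  have hprime' : I.IsPrime := by rw [hI]; exact hprime
  have hY0 : ∀ i, Ideal.Quotient.mkₐ K I (Y i) ≠ 0 := by
    intro i
    obtain ⟨e, k, rfl⟩ := hcov i
    exact (halg e).ne_zero k
  -- the numbers
  set t1 : ℕ := ∑ e, t0 e with ht1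
  have htle : ∀ e, t0 e ≤ t1 := fun e =>
    Finset.single_le_sum (f := t0) (fun _ _ => Nat.zero_le _) (Finset.mem_univ e)
  set B : ℕ := ∑ e, ∑ β ∈ E e, β.degree with hBd
  have hB : ∀ e, ∀ β ∈ E e, β.degree ≤ D * B := by
    intro e β hβ
    refine (Finset.single_le_sum (f := fun β : Fin n →₀ ℕ => β.degree) (fun _ _ => Nat.zero_le _)
      hβ).trans ?_
    refine (Finset.single_le_sum (f := fun e => ∑ β ∈ E e, β.degree) (fun _ _ => Nat.zero_le _)
      (Finset.mem_univ e)).trans ?_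
    exact Nat.le_mul_of_pos_left _ hD
  obtain ⟨C1, hC10, hC1⟩ := exists_theta K n r
  set C2 : ℝ := Fintype.card Sy * (t1 * (1 + t1) ^ ν) with hC2
  have hC20 : 0 ≤ C2 := by positivity
  have hcpos : ∀ ρ ∈ RR r, 1 ≤ cstR ν ρ := by
    intro ρ hρ
    have h1 := one_le_cstR hν (RR_one_le hρ)
    have : (0 : ℝ) ≤ ν := Nat.cast_nonneg _
    linarith
  have hτ : ∀ ρ : ℝ, ∃ τ G : ℝ, ρ ∈ RR r → (1 / (cstR ν ρ + ε) < G ∧ ∀ᶠ T : ℕ in atTop,
      ⌊τ * T⌋₊ + B ≤ T ∧
      G * T ≤ ((⌊τ * T⌋₊ : ℕ) : ℝ) * (1 - ρ) + ρ * HH ν B t1 T ⌊τ * T⌋₊) := by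
    intro ρ
    by_cases h : ρ ∈ RR r
    · obtain ⟨τ, G, h1, h2⟩ := exists_tau hν (RR_one_le h) B t1 hε
      exact ⟨τ, G, fun _ => ⟨h1, h2⟩⟩
    · exact ⟨0, 0, fun h' => absurd h' h⟩
  choose τ Gt hτG using hτ
  obtain ⟨T, hT1, hT⟩ := choose_T D hD C1 ε hε (RR r) (RR_finite r) (cstR ν)
    (fun ρ hρ => by have := hcpos ρ hρ; linarith)
    (fun ρ T => (((⌊τ ρ * T⌋₊ : ℕ) : ℝ) * (1 - ρ) + ρ * HH ν B t1 T ⌊τ ρ * T⌋₊) - r * C2)
    (fun ρ T => ⌊τ ρ * T⌋₊ + B ≤ T) (fun ρ hρ => by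
      obtain ⟨h1, h2⟩ := hτG ρ hρ
      have hc := hcpos ρ hρ
      set G1 : ℝ := (Gt ρ + 1 / (cstR ν ρ + ε)) / 2 with hG1
      refine ⟨G1, by rw [hG1]; linarith, ?_⟩
      have hlt : 0 < Gt ρ - G1 := by rw [hG1]; linarith
      have hTt : Tendsto (fun T : ℕ => (T : ℝ)) atTop atTop := tendsto_natCast_atTop_atTop
      filter_upwards [h2, hTt.eventually_ge_atTop (r * C2 / (Gt ρ - G1))] with T h3 h4
      refine ⟨h3.1, ?_⟩
      rw [div_le_iff₀ hlt] at h4
      linarith [h3.2])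
  have hone : (1 : ℝ) ∈ RR r := ⟨1, 1, le_rfl, le_rfl, hr, by norm_num⟩
  have hBT : B ≤ T := by
    have := (hT 1 hone).1
    omega
  set Jm : ℕ := T - B with hJm
  set M : ℕ := D * T with hM
  obtain ⟨e0⟩ : Nonempty Sy := inferInstance
  have hfin : FiniteDimensional K (VM I M) := VM_finite I M
  obtain ⟨N, hN⟩ : ∃ N, N = Module.finrank K (VM I M) := ⟨_, rfl⟩
  have hN1 : 1 ≤ N := by
    set a := Ideal.Quotient.mkₐ K I (y e0 0) with ha
    have ha0 : a ≠ 0 := (halg e0).ne_zero 0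
    have hmem : a ^ T ∈ VM I M := by
      refine ⟨y e0 0 ^ T, ?_, ?_⟩
      · exact (hyh e0 0).pow T
      · show Ideal.Quotient.mkₐ K I (y e0 0 ^ T) = _
        rw [map_pow]
    rw [Nat.one_le_iff_ne_zero]
    intro h0
    rw [hN, Submodule.finrank_eq_zero] at h0
    rw [h0] at hmem
    exact pow_ne_zero _ ha0 ((Submodule.mem_bot K).1 hmem)
  obtain ⟨sec, hsec⟩ := exists_sec I M
  set b0 : Module.Basis (Fin N) K (VM I M) := Module.finBasisOfFinrankEq K (VM I M) hN.symm with hb0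
  have hmemV : ∀ e, ∀ s : {s // s ∈ Sm D (E e) (ν + 1) M},
      Ideal.Quotient.mkₐ K I (ym (y e) s.1) ∈ VM I M := by
    intro e s
    have h1 := ym_hom (hyh e) s.1
    rw [((mem_Sm hD (E e) M s.1).1 s.2).2] at h1
    exact ⟨_, h1, rfl⟩
  set u : ∀ e, {s // s ∈ Sm D (E e) (ν + 1) M} → VM I M := fun e s =>
    ⟨Ideal.Quotient.mkₐ K I (ym (y e) s.1), hmemV e s⟩ with hu
  set Nn : ℕ → ℕ := fun k => Module.finrank K (VM I (D * k)) with hNn
  have hNnT : Nn T = N := hN.symm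
  have hSmN : ∀ e k, (Sm D (E e) (ν + 1) (D * k)).card ≤ Nn k := by
    intro e k
    have hfin' := VM_finite I (D * k)
    rw [← finrank_Ue hD I (y e) (E e) (hE e)]
    exact Submodule.finrank_mono (Ue_le hD I (y e) (hyh e) (E e) (D * k))
  have hNSm : ∀ e k, Nn k ≤ (Sm D (E e) (ν + 1) (D * (k + t1))).card := by
    intro e k
    have h2 := hcount e t1 (htle e) (D * k)
    rwa [← mul_add] at h2
  set H : Q × Fin Jm → Submodule K (VM I M) := Hs I D y E Y M Jm with hH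
  have hTm : ∀ a : ℕ, a < Jm → D * (a + 1) ≤ M := by
    intro a ha
    rw [hM]
    exact Nat.mul_le_mul_left D (by omega)
  have hHle : ∀ e k (a : Fin Jm), H (idx e k, a) ≤
      Submodule.span K (u e '' {s | (a : ℕ) + 1 ≤ s.1.1 k}) := by
    intro e k a
    exact Hs_le hD I y E Y M Jm u (fun _ _ => rfl) e k (idx e k) rfl a (hTm a a.2)
  obtain ⟨Z, hZI, hZh, hmain⟩ := glob_ch hD hN1 I hprime' G hI y hyh E hE idx hidx sec hsec u
    (fun _ _ => rfl) hN.symm b0 H hHle r hr C1 ⟨hC10, hC1⟩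
  refine ⟨Z, by rw [← hI]; exact hZI, hZh, fun S => ?_⟩
  -- the codimensions
  have hNR : (1 : ℝ) ≤ N := by exact_mod_cast hN1
  have hNR0 : (0 : ℝ) < N := by linarith
  set κ : Q → Fin Jm → ℝ := fun i a => ((N : ℝ) - finrank K (H (i, a))) / N with hκ
  have hκ0 : ∀ i a, 0 ≤ κ i a := by
    intro i a
    have h1 := Submodule.finrank_le (H (i, a))
    rw [← hN] at h1
    have h2 : (finrank K (H (i, a)) : ℝ) ≤ N := by exact_mod_cast h1
    exact div_nonneg (by linarith) hNR0.le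
  set Kc : ℕ → ℝ := fun a => ((Nn T : ℝ) - (Nn (T - (a + 1)) -
      ∑ e, ((Nn (T - (a + 1)) : ℝ) - (Sm D (E e) (ν + 1) (D * (T - (a + 1)))).card))) / N with hKc
  have hκK : ∀ i (a : Fin Jm), κ i a ≤ Kc a := by
    intro i a
    simp only [hκ, hKc]
    refine div_le_div_of_nonneg_right ?_ hNR0.le
    have h1 := finrank_Hs I hprime' y E Y hYh hY0 M Jm (i, a) (hTm a a.2)
    have h2 := finrank_Uf hD I y hyh E hE (M - D * ((a : ℕ) + 1))
    have e1 : M - D * ((a : ℕ) + 1) = D * (T - ((a : ℕ) + 1)) := by rw [hM, Nat.mul_sub]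
    have h3 : (finrank K (Uf I D y E (M - D * ((a : ℕ) + 1))) : ℝ) ≤
        finrank K (H (i, a)) := by exact_mod_cast h1
    have h4 := h2.trans h3
    rw [e1] at h4
    rw [hNnT]
    show (N : ℝ) - finrank K (H (i, a)) ≤ _
    linarith
  set a0 : ℝ := (M + C1 + 1) / (D * (1 + ε)) with ha0
  have hDR : (1 : ℝ) ≤ D := by exact_mod_cast hD
  have hMC : (0 : ℝ) < M + C1 + 1 := by positivity
  have ha00 : 0 < a0 := by positivity
  -- the gain
  have hgain : ∀ ρ ∈ RR r, ∀ i, a0 * Vf ν (1 / ρ) ≤ ∑ a, max (1 / ρ - κ i a) 0 := by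
    intro ρ hρ i
    obtain ⟨hJ, hT2⟩ := hT ρ hρ
    set J : ℕ := ⌊τ ρ * T⌋₊ with hJd
    have hρ1 := RR_one_le hρ
    have hρ0 : 0 < ρ := by linarith
    have hρr : ρ ≤ r := by
      obtain ⟨p, q, h1, h2, h3, rfl⟩ := hρ
      have h4 : (p : ℝ) / q ≤ p := div_le_self (Nat.cast_nonneg _) (by exact_mod_cast h1)
      exact h4.trans (by exact_mod_cast h3)
    have hJJ : J ≤ Jm := by omega
    have h1 : ∑ a : Fin Jm, max (1 / ρ - Kc a) 0 ≤ ∑ a, max (1 / ρ - κ i a) 0 := by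
      refine Finset.sum_le_sum fun a _ => max_le_max ?_ le_rfl
      linarith [hκK i a]
    rw [← Finset.sum_range (fun a => max (1 / ρ - Kc a) 0)] at h1
    have h2 : ∑ a ∈ Finset.range J, (1 / ρ - Kc a) ≤
        ∑ a ∈ Finset.range Jm, max (1 / ρ - Kc a) 0 := by
      refine (Finset.sum_le_sum fun a _ => le_max_left (1 / ρ - Kc a) 0).trans ?_
      refine Finset.sum_le_sum_of_subset_of_nonneg ?_ fun a _ _ => le_max_right _ _
      exact Finset.range_mono hJJ
    have h3 := codim_sum (ν := ν) hD E T J B t1 hB hJ Nn hSmN hNSm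
    have h4 : ∑ a ∈ Finset.range J, Kc a ≤ J - HH ν B t1 T J + C2 := by
      simp only [hKc]
      rw [← Finset.sum_div, div_le_iff₀ hNR0]
      rw [hNnT] at h3 ⊢
      linarith
    rw [Finset.sum_sub_distrib, Finset.sum_const, Finset.card_range, nsmul_eq_mul] at h2
    have h5 : a0 * Vf ν (1 / ρ) ≤ 1 / ρ * ((J : ℝ) * (1 - ρ) + ρ * HH ν B t1 T J - r * C2) := by
      rw [Vf_eq ν hρ1]
      have hc := hcpos ρ hρ
      have hc0 : 0 < cstR ν ρ := by linarith
      have h6 : (M : ℝ) + C1 + 1 ≤ (cstR ν ρ + ε) * (D * ((J : ℝ) * (1 - ρ) +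
        ρ * HH ν B t1 T J - r * C2)) := by
        have e1 : (M : ℝ) = D * T := by rw [hM]; push_cast; ring
        rw [e1]
        exact hT2
      set X : ℝ := (J : ℝ) * (1 - ρ) + ρ * HH ν B t1 T J - r * C2 with hX
      have hX0 : 0 ≤ X := by
        by_contra hneg
        push Not at hneg
        have h7 : (cstR ν ρ + ε) * (D * X) ≤ 0 :=
          mul_nonpos_of_nonneg_of_nonpos (by linarith)
            (mul_nonpos_of_nonneg_of_nonpos (by linarith) hneg.le)
        linarith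
      have h7 : (cstR ν ρ + ε) ≤ (1 + ε) * cstR ν ρ := by nlinarith
      have h8 : (M : ℝ) + C1 + 1 ≤ (1 + ε) * cstR ν ρ * (D * X) :=
        h6.trans (mul_le_mul_of_nonneg_right h7 (by positivity))
      have e2 : a0 * (1 / ρ / cstR ν ρ) = 1 / ρ * ((M + C1 + 1) / (D * (1 + ε) * cstR ν ρ)) := by
        rw [ha0]
        field_simp
      rw [e2]
      refine mul_le_mul_of_nonneg_left ?_ (by positivity)
      rw [div_le_iff₀ (by positivity)]
      linarith
    have h6 : 1 / ρ * ((J : ℝ) * (1 - ρ) + ρ * HH ν B t1 T J - r * C2) ≤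
        J * (1 / ρ) - (J - HH ν B t1 T J + C2) := by
      have e1 : 1 / ρ * ((J : ℝ) * (1 - ρ) + ρ * HH ν B t1 T J - r * C2) =
          J * (1 / ρ) - J + HH ν B t1 T J - (r / ρ) * C2 := by
        field_simp
      have h7 : 1 ≤ (r : ℝ) / ρ := by
        rw [le_div_iff₀ hρ0]
        linarith
      have h8 : C2 ≤ (r : ℝ) / ρ * C2 := le_mul_of_one_le_left hC20 h7
      rw [e1]
      linarith
    linarith
  -- enlarge `S`
  choose Tb hTb using fun j => exists_bad (sec (b0 j))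
  set S' : Finset (Pl K) := S ∪ (Finset.univ.image Sum.inl ∪
    Finset.univ.biUnion fun j => (Tb j).image Sum.inr) with hS'
  obtain ⟨C, c0, hC0, hc00, hC⟩ := hmain S' (fun v => by
    rw [hS']
    exact Finset.mem_union_right _ (Finset.mem_union_left _
      (Finset.mem_image_of_mem _ (Finset.mem_univ v)))) (fun v hv j => by
    refine hTb j v fun hvT => hv ?_
    rw [hS']
    refine Finset.mem_union_right _ (Finset.mem_union_right _ ?_)
    exact Finset.mem_biUnion.2 ⟨j, Finset.mem_univ j, Finset.mem_image_of_mem _ hvT⟩)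
  refine ⟨C / a0, c0, by positivity, hc00, ?_⟩
  intro L _ _ _ hrL x hx hGx hadj hZx e hyx
  obtain ⟨hpos, h1⟩ := hC L hrL x hx hGx hadj hZx e hyx
  refine ⟨hpos, ?_⟩
  have hd : 0 < finrank K L := finrank_pos
  set d : ℝ := (finrank K L : ℝ) with hdd
  have hdR : 0 < d := by rw [hdd]; exact_mod_cast hd
  have hLL0 : ∀ v w k, 0 ≤ LL v w c0 D (Y (idx (e w) k)) x := fun v w k =>
    div_nonneg (hpos w k) (nn_nonneg v w)
  have hLam0 : ∀ v i w, 0 ≤ Lam v c0 D Y x (fun w => idx (e w)) i w := by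
    intro v i w
    refine Finset.sum_nonneg fun k _ => ?_
    by_cases h : idx (e w) k = i
    · have h2 := hLL0 v w k
      rw [h] at h2
      exact (if_pos h).symm ▸ h2
    · exact (if_neg h).symm ▸ le_rfl
  have hth : ∀ (v : Pl K) (i : Q), ∃ θ : Fin Jm → ℝ, (∀ a, 0 ≤ θ a) ∧
      a0 * (d * ∫ t in Set.Ioi (0 : ℝ), Vf ν (PP (ab L v) (nn v) d
        (Lam v c0 D Y x (fun w => idx (e w)) i) t)) ≤
        ∑ a, (∑ w ∈ ab L v, nn v w * min (Lam v c0 D Y x (fun w => idx (e w)) i w) (θ a) -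
          d * κ i a * θ a) := by
    intro v i
    refine gain_one (ab L v) (nn v) (fun w _ => nn_nonneg v w) d hdR
      (Lam v c0 D Y x (fun w => idx (e w)) i) (sum_nn L v) (fun w _ => hLam0 v i w) (κ i) (hκ0 i)
      (Vf ν) (Vf_meas ν) 1 (fun s h1 h2 => Vf_le h1 h2) (Vf_zero ν) a0 ?_
    intro t
    rcases PP_val hrL v (Lam v c0 D Y x (fun w => idx (e w)) i) t with h2 | ⟨ρ, hρ, h2⟩
    · rw [h2, Vf_zero, mul_zero]
      exact Finset.sum_nonneg fun a _ => le_max_right _ _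
    · rw [h2]
      exact hgain ρ hρ i
  choose θ hθ0 hθ using hth
  have h2 := h1 (fun v j => θ v j.1 j.2) (fun v j => hθ0 v j.1 j.2)
  have hterm : ∀ v, ∑ w ∈ ab L v, nn v w * bf (fun k => LL v w c0 D (y (e w) k) x) (idx (e w))
        (fun j : Q × Fin Jm => θ v j.1 j.2) -
          d / N * ∑ j : Q × Fin Jm, θ v j.1 j.2 * ((N : ℝ) - finrank K (H j)) =
      ∑ i, ∑ a, (∑ w ∈ ab L v, nn v w * min (Lam v c0 D Y x (fun w => idx (e w)) i w) (θ v i a) -
          d * κ i a * θ v i a) := by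
    intro v
    simp only [Finset.sum_sub_distrib]
    congr 1
    · have e1 : ∀ w, bf (fun k => LL v w c0 D (y (e w) k) x) (idx (e w))
          (fun j : Q × Fin Jm => θ v j.1 j.2) =
          ∑ i, ∑ a, min (Lam v c0 D Y x (fun w => idx (e w)) i w) (θ v i a) := by
        intro w
        unfold bf
        rw [Finset.sum_comm]
        rw [Finset.sum_comm (s := (Finset.univ : Finset Q))]
        refine Finset.sum_congr rfl fun a _ => ?_
        exact sum_idx (idx (e w)) (hidx (e w)) (fun i => LL v w c0 D (Y i) x)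
          (fun i c => min c (θ v i a)) (fun i => min_eq_left (hθ0 v i a))
      simp only [e1]
      rw [Finset.sum_congr rfl fun w _ => Finset.mul_sum _ _ _, Finset.sum_comm]
      refine Finset.sum_congr rfl fun i _ => ?_
      rw [Finset.sum_congr rfl fun w _ => Finset.mul_sum _ _ _, Finset.sum_comm]
    · rw [Fintype.sum_prod_type, Finset.mul_sum]
      refine Finset.sum_congr rfl fun i _ => ?_
      rw [Finset.mul_sum]
      refine Finset.sum_congr rfl fun a _ => ?_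
      simp only [hκ]
      field_simp
  have h3 : ∑ v ∈ S', ∑ i, a0 * (d * ∫ t in Set.Ioi (0 : ℝ), Vf ν (PP (ab L v) (nn v) d
        (Lam v c0 D Y x (fun w => idx (e w)) i) t)) ≤ (M + C1 + 1) * logHeight x + C := by
    refine le_trans (Finset.sum_le_sum fun v _ => ?_) h2
    rw [hterm v]
    exact Finset.sum_le_sum fun i _ => hθ v i
  have hint0 : ∀ v i, 0 ≤ d * ∫ t in Set.Ioi (0 : ℝ), Vf ν (PP (ab L v) (nn v) d
        (Lam v c0 D Y x (fun w => idx (e w)) i) t) := by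
    intro v i
    refine mul_nonneg hdR.le (setIntegral_nonneg measurableSet_Ioi fun t _ => ?_)
    exact Vf_nonneg hν (PP_nonneg (ab L v) (nn v) (fun w _ => nn_nonneg v w) d hdR _ t)
      (PP_le_one (ab L v) (nn v) (fun w _ => nn_nonneg v w) d hdR _ (sum_nn L v) t)
  have h4 : a0 * ∑ v ∈ S, ∑ i, d * ∫ t in Set.Ioi (0 : ℝ), Vf ν (PP (ab L v) (nn v) d
        (Lam v c0 D Y x (fun w => idx (e w)) i) t) ≤ (M + C1 + 1) * logHeight x + C := by
    refine le_trans ?_ h3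
    rw [Finset.mul_sum]
    simp only [Finset.mul_sum]
    exact Finset.sum_le_sum_of_subset_of_nonneg Finset.subset_union_left fun v _ _ =>
      Finset.sum_nonneg fun i _ => mul_nonneg ha00.le (hint0 v i)
  have h5 : (M + C1 + 1) * logHeight x + C = a0 * (D * (1 + ε) * logHeight x + C / a0) := by
    rw [mul_add, mul_div_cancel₀ _ ha00.ne', ha0]
    congr 1
    have : (D : ℝ) ≠ 0 := by linarith
    have : (1 + ε) ≠ 0 := by linarith
    field_simp
  rw [h5] at h4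
  exact le_of_mul_le_mul_left h4 ha00

end Pool.Agent.H85.W
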