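import Pool.Agent.H85.W.Sup
import Pool.Graph.R_pool_sql_team_seeded_3dad9d7b.NH28.PlaceV
import Pool.Graph.R_pool_sql_team_seeded_3dad9d7b.NH28.Asy

/-!
The subspaces of multiples of powers of the forms in a degree part of the coordinate ring.
-/

set_option autoImplicit false
set_option linter.unusedSectionVars false

namespace Pool.Agent.H85.W

open MvPolynomial Finset Module
open Pool.Agent.TH875 (VM VM_finite Sm mem_Sm Ind ym ym_hom dg ym_mul dg_add)
open Pool.Agent.NH28 (indep_u codim_inf card_ge card_compare HH pow_sub_pow_le')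

section mod

variable {K : Type} [Field K] [NumberField K] {n R : ℕ}

/-- the span of the monomials of degree `M` -/
noncomputable def Ue (I : Ideal (MvPolynomial (Fin n) K)) (D : ℕ)
    (y : Fin R → MvPolynomial (Fin n) K) (E : Finset (Fin n →₀ ℕ)) (M : ℕ) :
    Submodule K (MvPolynomial (Fin n) K ⧸ I) :=
  Submodule.span K ((fun s => Ideal.Quotient.mkₐ K I (ym y s)) '' (Sm D E R M : Set _))

lemma mem_VM {I : Ideal (MvPolynomial (Fin n) K)} {M : ℕ} {F : MvPolynomial (Fin n) K}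
    (hF : F.IsHomogeneous M) : Ideal.Quotient.mkₐ K I F ∈ VM I M := ⟨F, hF, rfl⟩

lemma Ue_le {D : ℕ} (hD : 1 ≤ D) (I : Ideal (MvPolynomial (Fin n) K))
    (y : Fin R → MvPolynomial (Fin n) K) (hyh : ∀ k, (y k).IsHomogeneous D)
    (E : Finset (Fin n →₀ ℕ)) (M : ℕ) : Ue I D y E M ≤ VM I M := by
  refine Submodule.span_le.2 ?_
  rintro _ ⟨s, hs, rfl⟩
  have h1 := ym_hom hyh s
  rw [((mem_Sm hD E M s).1 hs).2] at h1
  exact mem_VM h1

lemma finrank_Ue {D : ℕ} (hD : 1 ≤ D) (I : Ideal (MvPolynomial (Fin n) K))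
    (y : Fin R → MvPolynomial (Fin n) K) (E : Finset (Fin n →₀ ℕ)) (hE : Ind I y E) (M : ℕ) :
    finrank K (Ue I D y E M) = (Sm D E R M).card := by
  have h1 : LinearIndependent K (fun s : {s : (Fin R → ℕ) × (Fin n →₀ ℕ) | s.2 ∈ E} =>
    Ideal.Quotient.mkₐ K I (ym y s.1)) := hE
  have h2 := h1.comp (fun s : {s // s ∈ Sm D E R M} =>
    (⟨s.1, ((mem_Sm hD E M s.1).1 s.2).1⟩ : {s : (Fin R → ℕ) × (Fin n →₀ ℕ) | s.2 ∈ E})) (by
      intro s s' h
      exact Subtype.ext (congrArg (fun z => z.1) h))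
  have h3 := finrank_span_eq_card h2
  rw [Fintype.card_coe] at h3
  rw [← h3]
  have e1 : Set.range ((fun s : {s : (Fin R → ℕ) × (Fin n →₀ ℕ) | s.2 ∈ E} =>
    Ideal.Quotient.mkₐ K I (ym y s.1)) ∘ (fun s : {s // s ∈ Sm D E R M} =>
    (⟨s.1, ((mem_Sm hD E M s.1).1 s.2).1⟩ : {s : (Fin R → ℕ) × (Fin n →₀ ℕ) | s.2 ∈ E}))) =
    (fun s => Ideal.Quotient.mkₐ K I (ym y s)) '' (Sm D E R M : Set _) := by
    ext z
    constructor
    · rintro ⟨s, rfl⟩
      exact ⟨s.1, s.2, rfl⟩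
    · rintro ⟨s, hs, rfl⟩
      exact ⟨⟨s, hs⟩, rfl⟩
  rw [e1]
  rfl

variable {Sy : Type} [Fintype Sy]

/-- the common part of the spans of several systems -/
noncomputable def Uf (I : Ideal (MvPolynomial (Fin n) K)) (D : ℕ)
    (y : Sy → Fin R → MvPolynomial (Fin n) K) (E : Sy → Finset (Fin n →₀ ℕ)) (M : ℕ) :
    Submodule K (MvPolynomial (Fin n) K ⧸ I) :=
  VM I M ⊓ ⨅ e, Ue I D (y e) (E e) M

lemma Uf_finite (I : Ideal (MvPolynomial (Fin n) K)) (D : ℕ)
    (y : Sy → Fin R → MvPolynomial (Fin n) K) (E : Sy → Finset (Fin n →₀ ℕ)) (M : ℕ) :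
    FiniteDimensional K (Uf I D y E M) := by
  have := VM_finite I M
  exact Submodule.finiteDimensional_of_le (inf_le_left : Uf I D y E M ≤ VM I M)

lemma finrank_Uf {D : ℕ} (hD : 1 ≤ D) (I : Ideal (MvPolynomial (Fin n) K))
    (y : Sy → Fin R → MvPolynomial (Fin n) K) (hyh : ∀ e k, (y e k).IsHomogeneous D)
    (E : Sy → Finset (Fin n →₀ ℕ)) (hE : ∀ e, Ind I (y e) (E e)) (M : ℕ) :
    (finrank K (VM I M) : ℝ) - ∑ e, ((finrank K (VM I M) : ℝ) - (Sm D (E e) R M).card) ≤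
      finrank K (Uf I D y E M) := by
  classical
  have hfin := VM_finite I M
  have hfin2 := Uf_finite I D y E M
  set U : Sy → Submodule K (VM I M) := fun e => (Ue I D (y e) (E e) M).comap (VM I M).subtype
    with hU
  have h1 := codim_inf (K := K) (V := VM I M) Finset.univ U
  have h2 : ∀ e, finrank K (U e) = (Sm D (E e) R M).card := by
    intro e
    rw [← finrank_Ue hD I (y e) (E e) (hE e) M]
    exact (Submodule.comapSubtypeEquivOfLe (Ue_le hD I (y e) (hyh e) (E e) M)).finrank_eq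
  have h3 : finrank K ((Finset.univ : Finset Sy).inf U : Submodule K (VM I M)) ≤
      finrank K (Uf I D y E M) := by
    have h4 : ((Finset.univ : Finset Sy).inf U).map (VM I M).subtype ≤ Uf I D y E M := by
      rintro _ ⟨x, hx, rfl⟩
      refine ⟨x.2, ?_⟩
      rw [SetLike.mem_coe, Submodule.mem_iInf]
      intro e
      have h5 : (Finset.univ : Finset Sy).inf U ≤ U e := Finset.inf_le (Finset.mem_univ e)
      exact h5 hx
    have h5 := Submodule.finrank_mono h4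
    have h6 : finrank K (((Finset.univ : Finset Sy).inf U).map (VM I M).subtype) =
        finrank K ((Finset.univ : Finset Sy).inf U : Submodule K (VM I M)) :=
      (Submodule.equivMapOfInjective _ (VM I M).injective_subtype _).finrank_eq.symm
    omega
  have h4 : (finrank K ((Finset.univ : Finset Sy).inf U : Submodule K (VM I M)) : ℝ) ≤
      finrank K (Uf I D y E M) := by exact_mod_cast h3
  simp only [h2] at h1
  linarith

variable {Q : Type}

/-- the multiples of a power of a form -/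
noncomputable def Hs (I : Ideal (MvPolynomial (Fin n) K)) (D : ℕ)
    (y : Sy → Fin R → MvPolynomial (Fin n) K) (E : Sy → Finset (Fin n →₀ ℕ))
    (Y : Q → MvPolynomial (Fin n) K) (M Jm : ℕ) (j : Q × Fin Jm) : Submodule K (VM I M) :=
  ((Uf I D y E (M - D * ((j.2 : ℕ) + 1))).map
    (LinearMap.mulLeft K (Ideal.Quotient.mkₐ K I (Y j.1) ^ ((j.2 : ℕ) + 1)))).comap
    (VM I M).subtype

lemma finrank_Hs {D : ℕ} (I : Ideal (MvPolynomial (Fin n) K)) (hI : I.IsPrime)
    (y : Sy → Fin R → MvPolynomial (Fin n) K) (E : Sy → Finset (Fin n →₀ ℕ))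
    (Y : Q → MvPolynomial (Fin n) K) (hYh : ∀ i, (Y i).IsHomogeneous D)
    (hY0 : ∀ i, Ideal.Quotient.mkₐ K I (Y i) ≠ 0) (M Jm : ℕ) (j : Q × Fin Jm)
    (hj : D * ((j.2 : ℕ) + 1) ≤ M) :
    finrank K (Uf I D y E (M - D * ((j.2 : ℕ) + 1))) ≤ finrank K (Hs I D y E Y M Jm j) := by
  set m : ℕ := (j.2 : ℕ) + 1 with hm
  have hle : (Uf I D y E (M - D * m)).map
      (LinearMap.mulLeft K (Ideal.Quotient.mkₐ K I (Y j.1) ^ m)) ≤ VM I M := by
    rintro _ ⟨z, hz, rfl⟩
    obtain ⟨F, hF, rfl⟩ := hz.1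
    have h1 : (Y j.1 ^ m * F).IsHomogeneous (D * m + (M - D * m)) := ((hYh j.1).pow m).mul hF
    rw [show D * m + (M - D * m) = M by omega] at h1
    have h2 := mem_VM (I := I) h1
    rw [map_mul, map_pow] at h2
    exact h2
  have hinj : Function.Injective (LinearMap.mulLeft K (Ideal.Quotient.mkₐ K I (Y j.1) ^ m)) := by
    intro a b hab
    exact mul_left_cancel₀ (pow_ne_zero m (hY0 j.1)) hab
  have h1 : finrank K (Hs I D y E Y M Jm j) = finrank K ((Uf I D y E (M - D * m)).map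
      (LinearMap.mulLeft K (Ideal.Quotient.mkₐ K I (Y j.1) ^ m))) :=
    (Submodule.comapSubtypeEquivOfLe hle).finrank_eq
  have h2 : finrank K ((Uf I D y E (M - D * m)).map
      (LinearMap.mulLeft K (Ideal.Quotient.mkₐ K I (Y j.1) ^ m))) =
      finrank K (Uf I D y E (M - D * m)) :=
    (Submodule.equivMapOfInjective _ hinj _).finrank_eq.symm
  rw [h1, h2]

lemma Hs_le {D : ℕ} (hD : 1 ≤ D) (I : Ideal (MvPolynomial (Fin n) K))
    (y : Sy → Fin R → MvPolynomial (Fin n) K) (E : Sy → Finset (Fin n →₀ ℕ))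
    (Y : Q → MvPolynomial (Fin n) K) (M Jm : ℕ)
    (u : ∀ e, {s // s ∈ Sm D (E e) R M} → VM I M)
    (hu : ∀ e s, (u e s : MvPolynomial (Fin n) K ⧸ I) = Ideal.Quotient.mkₐ K I (ym (y e) s.1))
    (e : Sy) (k : Fin R) (i : Q) (hi : Y i = y e k) (m : Fin Jm) (hm : D * ((m : ℕ) + 1) ≤ M) :
    Hs I D y E Y M Jm (i, m) ≤ Submodule.span K (u e '' {s | (m : ℕ) + 1 ≤ s.1.1 k}) := by
  classical
  intro x hx
  obtain ⟨z, hz, hzx⟩ := hx
  have hzU : z ∈ Ue I D (y e) (E e) (M - D * ((m : ℕ) + 1)) := by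
    have h1 := hz.2
    rw [SetLike.mem_coe, Submodule.mem_iInf] at h1
    exact h1 e
  have hkey : Ue I D (y e) (E e) (M - D * ((m : ℕ) + 1)) ≤
      (((Submodule.span K (u e '' {s | (m : ℕ) + 1 ≤ s.1.1 k})).map (VM I M).subtype)).comap
        (LinearMap.mulLeft K (Ideal.Quotient.mkₐ K I (Y i) ^ ((m : ℕ) + 1))) := by
    refine Submodule.span_le.2 ?_
    rintro _ ⟨s, hs, rfl⟩
    have hs' := (mem_Sm hD (E e) _ s).1 hs
    set a : Fin R → ℕ := Pi.single k ((m : ℕ) + 1) with ha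
    have hsum : ∑ k, a k = (m : ℕ) + 1 := by
      rw [ha, Finset.sum_pi_single']
      simp
    have hs2 : (a + s.1, s.2) ∈ Sm D (E e) R M := by
      rw [mem_Sm hD]
      refine ⟨hs'.1, ?_⟩
      rw [dg_add, hs'.2, hsum]
      omega
    have h1 : Ideal.Quotient.mkₐ K I (Y i) ^ ((m : ℕ) + 1) * Ideal.Quotient.mkₐ K I (ym (y e) s) =
        (u e ⟨(a + s.1, s.2), hs2⟩ : MvPolynomial (Fin n) K ⧸ I) := by
      rw [hu, ← ym_mul, map_mul, hi, map_prod]
      congr 1
      rw [Finset.prod_eq_single k]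
      · rw [ha, Pi.single_eq_same, map_pow]
      · intro k' _ hne
        rw [ha, Pi.single_eq_of_ne hne, pow_zero, map_one]
      · intro h
        exact absurd (Finset.mem_univ k) h
    refine ⟨u e ⟨(a + s.1, s.2), hs2⟩, Submodule.subset_span ⟨_, ?_, rfl⟩, ?_⟩
    · show (m : ℕ) + 1 ≤ (a + s.1) k
      rw [Pi.add_apply, ha, Pi.single_eq_same]
      omega
    · show (u e ⟨(a + s.1, s.2), hs2⟩ : MvPolynomial (Fin n) K ⧸ I) = _
      rw [← h1]
      rfl
  obtain ⟨x', hx', hx'2⟩ := hkey hzU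
  have h2 : (x' : MvPolynomial (Fin n) K ⧸ I) = x := by
    have h3 : (x' : MvPolynomial (Fin n) K ⧸ I) =
      Ideal.Quotient.mkₐ K I (Y i) ^ ((m : ℕ) + 1) * z := hx'2
    have h4 : Ideal.Quotient.mkₐ K I (Y i) ^ ((m : ℕ) + 1) * z =
      (x : MvPolynomial (Fin n) K ⧸ I) := hzx
    rw [h3, h4]
  rw [← Subtype.ext h2]
  exact hx'

end mod

end Pool.Agent.H85.W
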