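import Pool.Agent.H85.W.Count
import Pool.Graph.R_pool_sql_team_seeded_3dad9d7b.NH28.PlaceW

/-!
The estimates at one place of `K`, with an iterated filtration.
-/

set_option autoImplicit false

namespace Pool.Agent.H85.W

open MvPolynomial Finset NumberField IsDedekindDomain Height Module
open Pool.Agent.W180.OP Pool.Agent.W180.TP Pool.Agent.TH875 Pool.Agent.NH28

section fam

variable {K V : Type} [Field K] [AddCommGroup V] [Module K V]

/-- the indices of the family -/
def Ix2 (Lf : Finset (Submodule K V)) : Type := Σ A : {A // A ∈ Lf}, Fin (finrank K A.1)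

noncomputable instance (Lf : Finset (Submodule K V)) : Fintype (Ix2 Lf) := by
  classical
  unfold Ix2
  infer_instance

/-- the family -/
noncomputable def ph2 [FiniteDimensional K V] (Lf : Finset (Submodule K V)) (i : Ix2 Lf) : V :=
  (Module.finBasis K i.1.1 i.2 : V)

lemma ph2_mem [FiniteDimensional K V] (Lf : Finset (Submodule K V)) (i : Ix2 Lf) :
    ph2 Lf i ∈ i.1.1 :=
  Subtype.property _

lemma ph2_ne [FiniteDimensional K V] (Lf : Finset (Submodule K V)) (i : Ix2 Lf) :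
    ph2 Lf i ≠ 0 := by
  intro h
  exact (Module.finBasis K i.1.1).ne_zero i.2 (Subtype.ext h)

lemma le_ph2 [FiniteDimensional K V] (Lf : Finset (Submodule K V)) (A : Submodule K V)
    (hA : A ∈ Lf) :
    A ≤ Submodule.span K (Set.range fun j => ph2 Lf (⟨⟨A, hA⟩, j⟩ : Ix2 Lf)) := by
  have h1 := (Module.finBasis K A).span_eq
  have h2 : (Set.range fun j => ph2 Lf (⟨⟨A, hA⟩, j⟩ : Ix2 Lf)) =
      A.subtype '' (Set.range (Module.finBasis K A)) := by
    rw [← Set.range_comp]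
    rfl
  rw [h2, Submodule.span_image, h1, Submodule.map_top, Submodule.range_subtype]

end fam

/-- the exponent at a place -/
noncomputable def bf {R Jm : ℕ} {Q : Type} (Λ : Fin R → ℝ) (ix : Fin R → Q)
    (th : Q × Fin Jm → ℝ) : ℝ := ∑ k, ∑ m : Fin Jm, min (Λ k) (th (ix k, m))

lemma bf_nonneg {R Jm : ℕ} {Q : Type} (Λ : Fin R → ℝ) (hΛ : ∀ k, 0 ≤ Λ k) (ix : Fin R → Q)
    (th : Q × Fin Jm → ℝ) (hth : ∀ j, 0 ≤ th j) : 0 ≤ bf Λ ix th :=
  Finset.sum_nonneg fun k _ => Finset.sum_nonneg fun _ _ => le_min (hΛ k) (hth _)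

lemma bf_le {R Jm : ℕ} {Q : Type} (Λ : Fin R → ℝ) (ix : Fin R → Q)
    (th : Q × Fin Jm → ℝ) : bf Λ ix th ≤ Jm * ∑ k, Λ k := by
  unfold bf
  rw [Finset.mul_sum]
  refine Finset.sum_le_sum fun k _ => ?_
  refine (Finset.sum_le_sum fun m _ => min_le_left (Λ k) (th (ix k, m))).trans (le_of_eq ?_)
  rw [Finset.sum_const, Finset.card_univ, Fintype.card_fin, nsmul_eq_mul]

theorem place_ch {K : Type} [Field K] [NumberField K] {n m R M D N Jm : ℕ} (hD : 1 ≤ D)
    (I : Ideal (MvPolynomial (Fin n) K)) (G : Fin m → MvPolynomial (Fin n) K)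
    (hI : I = Ideal.span (Set.range G)) {Sy Q : Type} [Fintype Sy] [Fintype Q] [DecidableEq Q]
    (y : Sy → Fin R → MvPolynomial (Fin n) K)
    (E : Sy → Finset (Fin n →₀ ℕ)) (hE : ∀ e, Ind I (y e) (E e))
    (idx : Sy → Fin R → Q) (hidx : ∀ e, Function.Injective (idx e))
    (sec : VM I M →ₗ[K] MvPolynomial (Fin n) K)
    (hsec : ∀ v, (sec v).IsHomogeneous M ∧ Ideal.Quotient.mkₐ K I (sec v) = v)
    (u : ∀ e, {s // s ∈ Sm D (E e) R M} → VM I M)
    (hu : ∀ e s, (u e s : MvPolynomial (Fin n) K ⧸ I) = Ideal.Quotient.mkₐ K I (ym (y e) s.1))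
    [FiniteDimensional K (VM I M)] (b0 : Fin N → VM I M) (hN : finrank K (VM I M) = N)
    (H : Q × Fin Jm → Submodule K (VM I M))
    (hH : ∀ e k (a : Fin Jm), H (idx e k, a) ≤
      Submodule.span K (u e '' {s | (a : ℕ) + 1 ≤ s.1.1 k}))
    (v : Pl K) (r : ℕ) (c0 : ℝ) (hc0 : 0 ≤ c0) :
    ∃ C : ℝ, 0 ≤ C ∧ ∀ (L : Type) [Field L] [NumberField L] [Algebra K L], finrank K L ≤ r →
      ∀ x : Fin n → L, x ≠ 0 → (∀ k, aeval x (G k) = 0) → ∀ e : Pl L → Sy,
      (∀ w k, aeval x (y (e w) k) ≠ 0) →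
      (∀ w k, 0 ≤ wt w * lam (av w) D (bc L (y (e w) k)) x + c0) →
      (∀ i : Ix2 (Lt H Finset.univ.toList), aeval x (sec (ph2 _ i)) ≠ 0) →
      ∀ (θ : L) (g0 : ℝ) (th : Q × Fin Jm → ℝ), θ ≠ 0 → (∀ j, 0 ≤ th j) →
      (∀ w ∈ ab L v, wt w * Real.log (av w θ) + M * (wt w * Real.log (nrm (av w) x)) ≤
        nn v w * (g0 + bf (fun k => LL v w c0 D (y (e w) k) x) (idx (e w)) th)) →
      (∀ i : Ix2 (Lt H Finset.univ.toList), Algebra.trace K L (θ * aeval x (sec (ph2 _ i))) ≠ 0) →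
      (∀ j, aeval x (sec (b0 j)) ≠ 0 → Algebra.trace K L (θ * aeval x (sec (b0 j))) ≠ 0 →
        wt v * Real.log (av v (Algebra.trace K L (θ * aeval x (sec (b0 j))))) ≤
        g0 + ∑ w ∈ ab L v, bf (fun k => LL v w c0 D (y (e w) k) x) (idx (e w)) th + C) ∧
      ∃ β : Fin N → Ix2 (Lt H Finset.univ.toList), LinearIndependent K (fun a => ph2 _ (β a)) ∧
        ∑ a, wt v * Real.log (av v (Algebra.trace K L (θ * aeval x (sec (ph2 _ (β a)))))) ≤
          N * (g0 + C) + ∑ j, th j * ((N : ℝ) - finrank K (H j)) := by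
  classical
  obtain ⟨ct, hct0, hct⟩ := trace_pl v r
  set Lf := Lt H Finset.univ.toList with hLf
  -- the crude constants
  choose Ca hCa0 hCa using fun i : Ix2 Lf => loc_crude (sec (ph2 Lf i)) (hsec (ph2 Lf i)).1
  choose Cc hCc0 hCc using fun j : Fin N => loc_crude (sec (b0 j)) (hsec (b0 j)).1
  -- the fine constants
  have hfine : ∀ (i : Ix2 Lf) (a : Σ e : Sy, Finset {s // s ∈ Sm D (E e) R M}), ∃ C : ℝ, 0 ≤ C ∧
      (ph2 Lf i ∈ Submodule.span K (u a.1 '' (a.2 : Set {s // s ∈ Sm D (E a.1) R M})) →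
      ∀ (L : Type) [Field L] [NumberField L] [Algebra K L] (w : Pl L)
      (x : Fin n → L), x ≠ 0 → (∀ k, aeval x (G k) = 0) → (∀ k, aeval x (y a.1 k) ≠ 0) →
      aeval x (sec (ph2 Lf i)) ≠ 0 → ∀ τ : ℝ,
      (∀ s ∈ a.2, τ ≤ wt w * ∑ k, (s.1.1 k : ℝ) * lam (av w) D (bc L (y a.1 k)) x) →
      wt w * Real.log (av w (aeval x (sec (ph2 Lf i)))) ≤
        M * (wt w * Real.log (nrm (av w) x)) - τ + C * finrank ℚ L) := by
    intro i a
    by_cases ha : ph2 Lf i ∈ Submodule.span K (u a.1 '' (a.2 : Set {s // s ∈ Sm D (E a.1) R M}))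
    · obtain ⟨C, hC0, hC⟩ := loc_one hD I G hI (y a.1) (E a.1) sec hsec (u a.1) (hu a.1) a.2
        (ph2 Lf i) ha
      exact ⟨C, hC0, fun _ => hC⟩
    · exact ⟨0, le_rfl, fun h => absurd h ha⟩
  choose Cb hCb0 hCb using hfine
  have hCcs : 0 ≤ ∑ j, Cc j := Finset.sum_nonneg fun j _ => hCc0 j
  set Cs : ℝ := ∑ i, Ca i + ∑ i, ∑ a, Cb i a + ∑ j, Cc j with hCs
  have hCc1 : ∀ j, Cc j ≤ Cs := by
    intro j
    have h1 := Finset.single_le_sum (f := Cc) (fun i _ => hCc0 i) (Finset.mem_univ j)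
    have h2 : 0 ≤ ∑ i, ∑ a, Cb i a := Finset.sum_nonneg fun i _ => Finset.sum_nonneg fun a _ =>
      hCb0 i a
    have h3 : 0 ≤ ∑ i, Ca i := Finset.sum_nonneg fun i _ => hCa0 i
    linarith
  have hCa1 : ∀ i, Ca i ≤ Cs := by
    intro i
    have h1 := Finset.single_le_sum (f := Ca) (fun i _ => hCa0 i) (Finset.mem_univ i)
    have h2 : 0 ≤ ∑ i, ∑ a, Cb i a := Finset.sum_nonneg fun i _ => Finset.sum_nonneg fun a _ =>
      hCb0 i a
    linarith
  have hCb1 : ∀ i a, Cb i a ≤ Cs := by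
    intro i a
    have h1 := Finset.single_le_sum (f := fun i => ∑ a, Cb i a) (fun i _ =>
      Finset.sum_nonneg fun a _ => hCb0 i a) (Finset.mem_univ i)
    have h2 := Finset.single_le_sum (f := fun a => Cb i a) (fun a _ => hCb0 i a)
      (Finset.mem_univ a)
    have h3 : 0 ≤ ∑ i, Ca i := Finset.sum_nonneg fun i _ => hCa0 i
    linarith
  have hCs0 : 0 ≤ Cs := by
    have h3 : 0 ≤ ∑ i, Ca i := Finset.sum_nonneg fun i _ => hCa0 i
    have h2 : 0 ≤ ∑ i, ∑ a, Cb i a := Finset.sum_nonneg fun i _ => Finset.sum_nonneg fun a _ =>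
      hCb0 i a
    linarith
  set Qc : ℝ := (finrank ℚ K : ℝ) * r with hQc
  have hQ0 : 0 ≤ Qc := by positivity
  set C1 : ℝ := c0 * M + Cs * Qc with hC1
  have hC10 : 0 ≤ C1 := by positivity
  refine ⟨C1 + ct, by positivity, ?_⟩
  intro L _ _ _ hr x hx hGx e hyx hpos hphx θ g0 th hθ0 hth hθ htr
  have hfq : (finrank ℚ L : ℝ) ≤ Qc := by
    have h1 : finrank ℚ K * finrank K L = finrank ℚ L := finrank_mul_finrank ℚ K L
    rw [hQc, ← h1]
    push_cast
    exact mul_le_mul_of_nonneg_left (by exact_mod_cast hr) (Nat.cast_nonneg _)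
  have hfq0 : (0 : ℝ) ≤ finrank ℚ L := Nat.cast_nonneg _
  set Λ : Pl L → Fin R → ℝ := fun w k => LL v w c0 D (y (e w) k) x with hΛ
  have hΛ0 : ∀ w k, 0 ≤ Λ w k := fun w k => div_nonneg (hpos w k) (nn_nonneg v w)
  set b : Pl L → ℝ := fun w => bf (Λ w) (idx (e w)) th with hb
  have hb0 : ∀ w, 0 ≤ b w := fun w => bf_nonneg _ (hΛ0 w) _ _ hth
  set l : ∀ w : Pl L, {s // s ∈ Sm D (E (e w)) R M} → ℝ := fun w s =>
    ∑ k, (s.1.1 k : ℝ) * Λ w k with hl
  set B : ℝ := ∑ w ∈ ab L v, b w with hB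
  set z : Ix2 Lf → ℝ := fun i =>
    wt v * Real.log (av v (Algebra.trace K L (θ * aeval x (sec (ph2 Lf i))))) with hz
  -- the filtration at one place
  have hFd : ∀ w s, Fd H th Finset.univ.toList s ≤ Fil (u (e w)) (l w) (b w - s) := by
    intro w s
    exact Fd_full (u (e w)) (indep_u hD I (y (e w)) (E (e w)) (hE (e w)) (u (e w)) (hu (e w)))
      (fun a k => a.1.1 k) (idx (e w)) (hidx (e w)) H (hH (e w)) (Λ w) (hΛ0 w) th hth s
  -- the main local estimate
  have hmain : ∀ s, 0 ≤ s → ∀ i : Ix2 Lf, ph2 Lf i ∈ Fd H th Finset.univ.toList s →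
      z i ≤ s + (g0 + (C1 + ct)) := by
    intro s hs0 i hi
    have h1 : ∀ w ∈ ab L v, wt w * Real.log (av w (θ * aeval x (sec (ph2 Lf i)))) ≤
        nn v w * (g0 + s + C1) := by
      intro w hw
      have hnn := one_le_nn (mem_ab.1 hw)
      have h2 : wt w * Real.log (av w (aeval x (sec (ph2 Lf i)))) ≤
          M * (wt w * Real.log (nrm (av w) x)) - nn v w * (b w - s) + C1 := by
        by_cases h0 : 0 < b w - s
        · have hi2 := hFd w s hi
          unfold Fil at hi2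
          rw [if_neg (by linarith)] at hi2
          set A : Finset {s // s ∈ Sm D (E (e w)) R M} :=
            Finset.univ.filter fun a => b w - s ≤ l w a with hA
          have hAe : {a | b w - s ≤ l w a} = (A : Set {s // s ∈ Sm D (E (e w)) R M}) := by
            ext a
            simp [hA]
          rw [hAe] at hi2
          have h3 := hCb i ⟨e w, A⟩ hi2 L w x hx hGx (hyx w) (hphx i)
            (nn v w * (b w - s) - c0 * M) (by
              intro a ha
              have ha2 : b w - s ≤ l w a := (Finset.mem_filter.1 ha).2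
              have h4 := mul_le_mul_of_nonneg_left ha2 (nn_nonneg v w)
              have h5 : nn v w * l w a = wt w * ∑ k, (a.1.1 k : ℝ) *
                  lam (av w) D (bc L (y (e w) k)) x + c0 * ∑ k, (a.1.1 k : ℝ) := by
                simp only [hl, hΛ, LL]
                rw [Finset.mul_sum, Finset.mul_sum, Finset.mul_sum, ← Finset.sum_add_distrib]
                refine Finset.sum_congr rfl fun k _ => ?_
                have : nn v w ≠ 0 := by linarith
                field_simp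
              have h6 : ∑ k, (a.1.1 k : ℝ) ≤ M := by
                have h7 := ((mem_Sm hD (E (e w)) M a.1).1 a.2).2
                unfold dg at h7
                have h8 : ∑ k, a.1.1 k ≤ D * ∑ k, a.1.1 k := Nat.le_mul_of_pos_left _ hD
                have h9 : ∑ k, a.1.1 k ≤ M := by omega
                exact_mod_cast h9
              have h7 := mul_le_mul_of_nonneg_left h6 hc0
              rw [h5] at h4
              linarith)
          have h4 : Cb i ⟨e w, A⟩ * finrank ℚ L ≤ Cs * Qc :=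
            mul_le_mul (hCb1 _ _) hfq hfq0 hCs0
          rw [hC1]
          linarith
        · push Not at h0
          have h3 := hCa i L w x hx (hphx i)
          have h4 : Ca i * finrank ℚ L ≤ Cs * Qc := mul_le_mul (hCa1 _) hfq hfq0 hCs0
          have h5 : nn v w * (b w - s) ≤ 0 :=
            mul_nonpos_of_nonneg_of_nonpos (nn_nonneg v w) h0
          have h6 : 0 ≤ c0 * M := by positivity
          rw [hC1]
          linarith
      have h3 : wt w * Real.log (av w θ) + M * (wt w * Real.log (nrm (av w) x)) ≤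
        nn v w * (g0 + b w) := hθ w hw
      rw [map_mul, Real.log_mul ((av w).pos_iff.2 hθ0).ne' ((av w).pos_iff.2 (hphx i)).ne', mul_add]
      have h4 : C1 ≤ nn v w * C1 := le_mul_of_one_le_left hC10 hnn
      have h5 : nn v w * (g0 + s + C1) = nn v w * (g0 + b w) - nn v w * (b w - s) +
          nn v w * C1 := by ring
      rw [h5]
      linarith
    have h2 := hct L hr _ _ h1 (htr i)
    show z i ≤ s + (g0 + (C1 + ct))
    have h3 : z i ≤ g0 + s + C1 + ct := h2
    linarith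
  obtain ⟨β, hβ, h2⟩ := core_fd (ph2 Lf) N hN H hth Finset.univ.toList z (g0 + (C1 + ct)) (by
    intro s hs
    have hmem := Fd_mem_Lt H th Finset.univ.toList s
    refine (le_ph2 Lf _ hmem).trans (Submodule.span_mono ?_)
    rintro _ ⟨j, rfl⟩
    exact ⟨⟨⟨_, hmem⟩, j⟩, hmain s hs _ (ph2_mem Lf (⟨⟨_, hmem⟩, j⟩ : Ix2 Lf)), rfl⟩)
  refine ⟨fun j hjx hjt => ?_, β, hβ, ?_⟩
  · have h3 : ∀ w ∈ ab L v, wt w * Real.log (av w (θ * aeval x (sec (b0 j)))) ≤
        nn v w * (g0 + B + C1) := by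
      intro w hw
      have hnn := one_le_nn (mem_ab.1 hw)
      have h4 := hCc j L w x hx hjx
      have h5 : Cc j * finrank ℚ L ≤ Cs * Qc := mul_le_mul (hCc1 _) hfq hfq0 hCs0
      have h6 : 0 ≤ c0 * M := by positivity
      have h7 := hθ w hw
      have h8 : C1 ≤ nn v w * C1 := le_mul_of_one_le_left hC10 hnn
      have h9 : nn v w * b w ≤ nn v w * B := mul_le_mul_of_nonneg_left
        (Finset.single_le_sum (f := b) (fun w _ => hb0 w) hw) (nn_nonneg v w)
      rw [map_mul, Real.log_mul ((av w).pos_iff.2 hθ0).ne' ((av w).pos_iff.2 hjx).ne', mul_add]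
      have h10 : nn v w * (g0 + B + C1) = nn v w * (g0 + b w) + (nn v w * B - nn v w * b w) +
          nn v w * C1 := by ring
      have h11 : wt w * Real.log (av w θ) + M * (wt w * Real.log (nrm (av w) x)) ≤
        nn v w * (g0 + b w) := h7
      rw [h10]
      linarith
    have h4 := hct L hr _ _ h3 hjt
    linarith
  · rw [Finset.sum_map_toList] at h2
    rw [add_assoc] at *
    exact h2

end Pool.Agent.H85.W
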