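import Pool.Agent.H85.W.Main
import Pool.Graph.R_pool_sql_team_seeded_3dad9d7b.NH28.Mono

/-!
Change of scale and translation of distribution functions.
-/

set_option autoImplicit false

namespace Pool.Agent.H85.W

open Finset MeasureTheory
open Pool.Agent.NH28 (cstR cstR_mono one_le_cstR)

lemma Vf_mono {ν : ℕ} (hν : 1 ≤ ν) {s s' : ℝ} (hs0 : 0 ≤ s) (hss : s ≤ s') (hs1 : s' ≤ 1) :
    Vf ν s ≤ Vf ν s' := by
  rcases hs0.eq_or_lt with h | h
  · rw [← h, Vf_zero]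
    exact Vf_nonneg hν (hs0.trans hss) hs1
  · have h' : 0 < s' := lt_of_lt_of_le h hss
    have h1 : 1 ≤ 1 / s' := by
      rw [le_div_iff₀ h']
      linarith
    have h2 : 1 / s' ≤ 1 / s := one_div_le_one_div_of_le h hss
    have e1 := Vf_eq ν (h1.trans h2)
    have e2 := Vf_eq ν h1
    rw [one_div_one_div] at e1 e2
    rw [e1, e2]
    have h3 := cstR_mono hν h1 h2
    have h4 := one_le_cstR hν h1
    have h5 : (0 : ℝ) ≤ ν := Nat.cast_nonneg _
    have h6 : 0 < cstR ν (1 / s') := by linarith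
    exact div_le_div₀ h'.le hss h6 h3

variable {σ : Type} (W : Finset σ) (nw : σ → ℝ) (hn : ∀ w ∈ W, 0 ≤ nw w) (d : ℝ) (hd : 0 < d)

lemma PP_congr {W : Finset σ} {nw nw' : σ → ℝ} {d : ℝ} {Λ Λ' : σ → ℝ} {t t' : ℝ}
    (hn : ∀ w ∈ W, nw w = nw' w) (h : ∀ w ∈ W, (t ≤ Λ w ↔ t' ≤ Λ' w)) :
    PP W nw d Λ t = PP W nw' d Λ' t' := by
  classical
  unfold PP
  congr 1
  refine Finset.sum_congr ?_ fun w hw => hn w (Finset.mem_filter.1 hw).1
  ext w
  simp only [Finset.mem_filter]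
  constructor
  · rintro ⟨h1, h2⟩
    exact ⟨h1, (h w h1).1 h2⟩
  · rintro ⟨h1, h2⟩
    exact ⟨h1, (h w h1).2 h2⟩

lemma int_scale (Λ : σ → ℝ) (f : ℝ → ℝ) (D : ℝ) (hD : 0 < D) :
    ∫ t in Set.Ioi (0 : ℝ), f (PP W nw d (fun w => D * Λ w) t) =
      D * ∫ t in Set.Ioi (0 : ℝ), f (PP W nw d Λ t) := by
  have h1 := integral_comp_mul_left_Ioi (fun t => f (PP W nw d (fun w => D * Λ w) t)) 0 hD
  have h2 : ∀ t, PP W nw d (fun w => D * Λ w) (D * t) = PP W nw d Λ t := fun t =>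
    PP_congr (fun _ _ => rfl) fun w _ => mul_le_mul_iff_right₀ hD
  simp only [h2, mul_zero, smul_eq_mul] at h1
  rw [h1, ← mul_assoc, mul_inv_cancel₀ hD.ne', one_mul]

lemma int_translate (g : ℝ → ℝ) (c : ℝ) :
    ∫ t in Set.Ioi c, g (t - c) = ∫ t in Set.Ioi (0 : ℝ), g t := by
  rw [← integral_indicator measurableSet_Ioi, ← integral_indicator measurableSet_Ioi]
  have h1 : ∀ t, (Set.Ioi c).indicator (fun t => g (t - c)) t =
      (Set.Ioi (0 : ℝ)).indicator g (t - c) := by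
    intro t
    by_cases h : c < t
    · rw [Set.indicator_of_mem (Set.mem_Ioi.2 h), Set.indicator_of_mem (Set.mem_Ioi.2 (by linarith))]
    · rw [Set.indicator_of_notMem (fun h' => h (Set.mem_Ioi.1 h')),
        Set.indicator_of_notMem (fun h' => h (by have := Set.mem_Ioi.1 h'; linarith))]
  simp only [h1]
  exact integral_sub_right_eq_self _ c

include hn hd

lemma int_shift_le {ν : ℕ} (hν : 1 ≤ ν) (hsum : ∑ w ∈ W, nw w = d) (Λ Λ' : σ → ℝ) (c : ℝ)
    (hc : 0 ≤ c) (h : ∀ w ∈ W, Λ w ≤ Λ' w + c) :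
    ∫ t in Set.Ioi (0 : ℝ), Vf ν (PP W nw d Λ t) ≤
      (∫ t in Set.Ioi (0 : ℝ), Vf ν (PP W nw d Λ' t)) + c := by
  classical
  have hint : ∀ Λ : σ → ℝ, IntegrableOn (fun t => Vf ν (PP W nw d Λ t)) (Set.Ioi 0) := fun Λ =>
    PP_integrable W nw hn d hd Λ hsum (Vf ν) (Vf_meas ν) 1 (fun s h1 h2 => Vf_le h1 h2)
      (Vf_zero ν)
  have h0 := hint Λ
  rw [← Set.Ioc_union_Ioi_eq_Ioi hc] at h0
  have hi1 := h0.mono_set Set.subset_union_left
  have hi2 := h0.mono_set Set.subset_union_right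
  rw [← Set.Ioc_union_Ioi_eq_Ioi hc, setIntegral_union (Set.Ioc_disjoint_Ioi le_rfl)
    measurableSet_Ioi hi1 hi2, Set.Ioc_union_Ioi_eq_Ioi hc]
  have h1 : ∫ t in Set.Ioc 0 c, Vf ν (PP W nw d Λ t) ≤ ∫ _t in Set.Ioc 0 c, (1 : ℝ) := by
    refine setIntegral_mono_on hi1 (integrableOn_const (by simp)) measurableSet_Ioc fun t _ => ?_
    exact (le_abs_self _).trans (Vf_le (PP_nonneg W nw hn d hd Λ t)
      (PP_le_one W nw hn d hd Λ hsum t))
  rw [setIntegral_const, Real.volume_real_Ioc_of_le hc, sub_zero, smul_eq_mul, mul_one] at h1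
  have hle : ∀ t, PP W nw d Λ t ≤ PP W nw d Λ' (t - c) := by
    intro t
    unfold PP
    refine div_le_div_of_nonneg_right ?_ hd.le
    refine Finset.sum_le_sum_of_subset_of_nonneg ?_ ?_
    · intro w hw
      rw [Finset.mem_filter] at hw ⊢
      exact ⟨hw.1, by linarith [h w hw.1, hw.2]⟩
    · intro w hw _
      exact hn w (Finset.mem_filter.1 hw).1
  have htr := int_translate (fun t => Vf ν (PP W nw d Λ' t)) c
  have hi3 : IntegrableOn (fun t => Vf ν (PP W nw d Λ' (t - c))) (Set.Ioi c) := by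
    have h2 : IntegrableOn (fun t => Vf ν (PP W nw d (fun w => Λ' w + c) t)) (Set.Ioi c) :=
      (hint (fun w => Λ' w + c)).mono_set (Set.Ioi_subset_Ioi hc)
    refine h2.congr_fun (fun t _ => ?_) measurableSet_Ioi
    show Vf ν (PP W nw d (fun w => Λ' w + c) t) = Vf ν (PP W nw d Λ' (t - c))
    rw [PP_congr (fun _ _ => rfl) fun w _ => ?_]
    constructor <;> intro h <;> linarith
  have h2 : ∫ t in Set.Ioi c, Vf ν (PP W nw d Λ t) ≤
      ∫ t in Set.Ioi c, Vf ν (PP W nw d Λ' (t - c)) := by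
    refine setIntegral_mono_on hi2 hi3 measurableSet_Ioi fun t _ => ?_
    exact Vf_mono hν (PP_nonneg W nw hn d hd Λ t) (hle t)
      (PP_le_one W nw hn d hd Λ' hsum _)
  rw [htr] at h2
  linarith

lemma int_PP (hsum : ∑ w ∈ W, nw w = d) (Λ : σ → ℝ) :
    ∫ t in Set.Ioi (0 : ℝ), PP W nw d Λ t = (∑ w ∈ W, nw w * max (Λ w) 0) / d := by
  classical
  obtain ⟨B, hB0, hB⟩ : ∃ B : ℝ, 0 ≤ B ∧ ∀ w ∈ W, Λ w ≤ B := by
    refine ⟨∑ w ∈ W, |Λ w|, Finset.sum_nonneg fun w _ => abs_nonneg _, fun w hw => ?_⟩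
    exact (le_abs_self _).trans (Finset.single_le_sum (f := fun w => |Λ w|)
      (fun w _ => abs_nonneg _) hw)
  have h0 : IntegrableOn (fun t => PP W nw d Λ t) (Set.Ioi 0) :=
    PP_integrable W nw hn d hd Λ hsum (fun s => s) measurable_id 1 (fun s h1 h2 => by
      rw [abs_of_nonneg h1]; exact h2) rfl
  rw [← Set.Ioc_union_Ioi_eq_Ioi hB0] at h0
  have hi1 := h0.mono_set Set.subset_union_left
  have hi2 := h0.mono_set Set.subset_union_right
  rw [← Set.Ioc_union_Ioi_eq_Ioi hB0, setIntegral_union (Set.Ioc_disjoint_Ioi le_rfl)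
    measurableSet_Ioi hi1 hi2]
  have h1 : ∫ t in Set.Ioi B, PP W nw d Λ t = 0 := by
    have h2 : ∫ t in Set.Ioi B, PP W nw d Λ t = ∫ _t in Set.Ioi B, (0 : ℝ) :=
      setIntegral_congr_fun measurableSet_Ioi fun t ht =>
        PP_zero W nw d Λ t fun w hw => lt_of_le_of_lt (hB w hw) ht
    rw [h2, integral_zero]
  rw [h1, add_zero]
  have e2 : ∀ t, PP W nw d Λ t = ∑ w ∈ W, nw w / d * (Set.Iic (Λ w)).indicator (fun _ => (1 : ℝ)) t := by
    intro t
    unfold PP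
    rw [Finset.sum_div, Finset.sum_filter]
    refine Finset.sum_congr rfl fun w _ => ?_
    by_cases h : t ≤ Λ w
    · rw [if_pos h, Set.indicator_of_mem (Set.mem_Iic.2 h), mul_one]
    · rw [if_neg h, Set.indicator_of_notMem (fun h' => h (Set.mem_Iic.1 h')), mul_zero]
  have hi : ∀ w ∈ W, IntegrableOn (fun t => nw w / d *
      (Set.Iic (Λ w)).indicator (fun _ => (1 : ℝ)) t) (Set.Ioc 0 B) := fun w _ =>
    (Pool.Agent.NH28.integrable_ind B (Λ w)).const_mul _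
  simp only [e2]
  rw [integral_finsetSum _ hi, Finset.sum_div]
  refine Finset.sum_congr rfl fun w hw => ?_
  rw [integral_const_mul, Pool.Agent.NH28.integral_ind B (Λ w) hB0,
    min_eq_right (max_le (hB w hw) hB0)]
  ring

end Pool.Agent.H85.W
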