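import Pool.Agent.H85.W.Filt
import Pool.Graph.R_pool_sql_team_seeded_3dad9d7b.NH28.Core

/-!
The terms of the iterated filtration and the sizes of their elements at one place.
-/

set_option autoImplicit false

namespace Pool.Agent.H85.W

open Finset Module
open Pool.Agent.NH28 (Fil)

variable {K V : Type} [Field K] [AddCommGroup V] [Module K V]

lemma Fil_mono {κ : Type} (u : κ → V) {c c' : κ → ℝ} (hc : ∀ s, c s ≤ c' s) {t t' : ℝ}
    (ht : t' ≤ t) : Fil (K := K) u c t ≤ Fil (K := K) u c' t' := by
  unfold Fil
  by_cases h1 : t' ≤ 0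
  · rw [if_pos h1]
    exact le_top
  · rw [if_neg h1, if_neg (by linarith)]
    refine Submodule.span_mono (Set.image_mono ?_)
    intro s hs
    have hs' : t ≤ c s := hs
    show t' ≤ c' s
    linarith [hc s]

lemma span_inf_le {κ : Type} (u : κ → V) (hu : LinearIndependent K u) (A B : Set κ) :
    Submodule.span K (u '' A) ⊓ Submodule.span K (u '' B) ≤ Submodule.span K (u '' (A ∩ B)) := by
  intro x hx
  obtain ⟨hA, hB⟩ := Submodule.mem_inf.1 hx
  rw [Finsupp.mem_span_image_iff_linearCombination] at hA hB ⊢
  obtain ⟨a, ha, rfl⟩ := hA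
  obtain ⟨b, hb, hab⟩ := hB
  have h1 : b = a := hu hab
  subst h1
  refine ⟨b, ?_, rfl⟩
  rw [Finsupp.mem_supported] at ha hb ⊢
  exact Set.subset_inter ha hb

section fd

variable {Q κ : Type} [DecidableEq Q] (u : κ → V) (hu : LinearIndependent K u) {ν : ℕ}
  (ex : κ → Fin ν → ℕ) (idx : Fin ν → Q) (hidx : Function.Injective idx) {Jm : ℕ}
  (H : Q × Fin Jm → Submodule K V)
  (hH : ∀ k (m : Fin Jm), H (idx k, m) ≤ Submodule.span K (u '' {s | (m : ℕ) + 1 ≤ ex s k}))
  (ω : Fin ν → ℝ) (hω : ∀ k, 0 ≤ ω k) (θ : Q × Fin Jm → ℝ) (hθ : ∀ j, 0 ≤ θ j)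

include hu hidx hH hω hθ

theorem Fd_le (l : List (Q × Fin Jm)) : ∀ s, Fd H θ l s ≤
    Fil u (fun a => (l.map fun j => ∑ k, if idx k = j.1 ∧ (j.2 : ℕ) + 1 ≤ ex a k then ω k
      else 0).sum) ((l.map fun j => ∑ k, if idx k = j.1 then min (ω k) (θ j) else 0).sum - s) := by
  set f : Q × Fin Jm → ℝ := fun j => ∑ k, if idx k = j.1 then min (ω k) (θ j) else 0 with hf
  set g : κ → Q × Fin Jm → ℝ := fun a j =>
    ∑ k, if idx k = j.1 ∧ (j.2 : ℕ) + 1 ≤ ex a k then ω k else 0 with hg
  have hg0 : ∀ a j, 0 ≤ g a j := fun a j => Finset.sum_nonneg fun k _ => by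
    split_ifs
    · exact hω k
    · exact le_rfl
  have hgl0 : ∀ a (l : List (Q × Fin Jm)), 0 ≤ (l.map (g a)).sum := by
    intro a l
    refine List.sum_nonneg ?_
    intro x hx
    obtain ⟨j, -, rfl⟩ := List.mem_map.1 hx
    exact hg0 a j
  induction l with
  | nil =>
    intro s
    unfold Fd
    split_ifs with h
    · unfold Fil
      rw [if_pos (by simpa using h)]
    · exact bot_le
  | cons j l ih =>
    intro s
    have e1 : ∀ a, ((j :: l).map (g a)).sum = g a j + (l.map (g a)).sum := fun a => by
      rw [List.map_cons, List.sum_cons]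
    have e2 : ((j :: l).map f).sum = f j + (l.map f).sum := by
      rw [List.map_cons, List.sum_cons]
    show (Fd H θ l s ⊓ H j) ⊔ Fd H θ l (s - θ j) ≤
      Fil u (fun a => ((j :: l).map (g a)).sum) (((j :: l).map f).sum - s)
    simp only [e1, e2]
    by_cases hj : ∃ k, idx k = j.1
    · obtain ⟨k, hk⟩ := hj
      have hfj : f j = min (ω k) (θ j) := by
        simp only [hf]
        rw [Finset.sum_eq_single k]
        · rw [if_pos hk]
        · intro k' _ hne
          rw [if_neg]
          intro h
          exact hne (hidx (h.trans hk.symm))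
        · intro h
          exact absurd (Finset.mem_univ k) h
      have hgj : ∀ a, (j.2 : ℕ) + 1 ≤ ex a k → g a j = ω k := by
        intro a ha
        simp only [hg]
        rw [Finset.sum_eq_single k]
        · rw [if_pos ⟨hk, ha⟩]
        · intro k' _ hne
          rw [if_neg]
          rintro ⟨h, -⟩
          exact hne (hidx (h.trans hk.symm))
        · intro h
          exact absurd (Finset.mem_univ k) h
      have hfle : f j ≤ θ j := by rw [hfj]; exact min_le_right _ _
      have hfω : f j ≤ ω k := by rw [hfj]; exact min_le_left _ _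
      refine sup_le ?_ ?_
      · by_cases h0 : f j + (l.map f).sum - s ≤ 0
        · have : Fil (K := K) u (fun a => g a j + (l.map (g a)).sum)
              (f j + (l.map f).sum - s) = ⊤ := by
            unfold Fil
            rw [if_pos h0]
          rw [this]
          exact le_top
        have hHj : H j ≤ Submodule.span K (u '' {s | (j.2 : ℕ) + 1 ≤ ex s k}) := by
          have h1 := hH k j.2
          rw [hk] at h1
          exact h1
        have eFil : Fil (K := K) u (fun a => g a j + (l.map (g a)).sum)
              (f j + (l.map f).sum - s) =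
            Submodule.span K (u '' {a | f j + (l.map f).sum - s ≤ g a j + (l.map (g a)).sum}) := by
          unfold Fil
          rw [if_neg h0]
        rw [eFil]
        by_cases h1 : (l.map f).sum - s ≤ 0
        · refine inf_le_right.trans (hHj.trans (Submodule.span_mono (Set.image_mono ?_)))
          intro a ha
          have ha' : (j.2 : ℕ) + 1 ≤ ex a k := ha
          show f j + (l.map f).sum - s ≤ g a j + (l.map (g a)).sum
          rw [hgj a ha']
          have := hgl0 a l
          linarith
        · have h2 := ih s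
          have e3 : Fil (K := K) u (fun a => (l.map (g a)).sum) ((l.map f).sum - s) =
              Submodule.span K (u '' {a | (l.map f).sum - s ≤ (l.map (g a)).sum}) := by
            unfold Fil
            rw [if_neg h1]
          rw [e3] at h2
          refine (inf_le_inf h2 hHj).trans ((span_inf_le u hu _ _).trans
            (Submodule.span_mono (Set.image_mono ?_)))
          rintro a ⟨ha1, ha2⟩
          have ha1' : (l.map f).sum - s ≤ (l.map (g a)).sum := ha1
          have ha2' : (j.2 : ℕ) + 1 ≤ ex a k := ha2
          show f j + (l.map f).sum - s ≤ g a j + (l.map (g a)).sum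
          rw [hgj a ha2']
          linarith
      · refine (ih (s - θ j)).trans (Fil_mono u (fun a => ?_) (by linarith))
        have := hg0 a j
        linarith
    · have hfj : f j = 0 := Finset.sum_eq_zero fun k _ => if_neg fun h => hj ⟨k, h⟩
      refine sup_le (inf_le_left.trans ((ih s).trans (Fil_mono u (fun a => ?_) (by
        rw [hfj, zero_add])))) ((ih (s - θ j)).trans (Fil_mono u (fun a => ?_) (by
          have := hθ j
          rw [hfj]
          linarith)))
      · have := hg0 a j
        linarith
      · have := hg0 a j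
        linarith

theorem Fd_full [Fintype Q] (s : ℝ) : Fd H θ (Finset.univ : Finset (Q × Fin Jm)).toList s ≤
    Fil u (fun a => ∑ k, (ex a k : ℝ) * ω k)
      ((∑ k, ∑ m : Fin Jm, min (ω k) (θ (idx k, m))) - s) := by
  refine (Fd_le u hu ex idx hidx H hH ω hω θ hθ _ s).trans (Fil_mono u (fun a => ?_) ?_)
  · rw [Finset.sum_map_toList, Finset.sum_comm]
    refine Finset.sum_le_sum fun k _ => ?_
    rw [Fintype.sum_prod_type, Finset.sum_eq_single (idx k)]
    · have h1 : ∀ m : Fin Jm, (if idx k = idx k ∧ (m : ℕ) + 1 ≤ ex a k then ω k else 0) =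
          if (m : ℕ) < ex a k then ω k else 0 := by
        intro m
        by_cases h : (m : ℕ) < ex a k
        · rw [if_pos ⟨rfl, h⟩, if_pos h]
        · rw [if_neg (fun h' => h h'.2), if_neg h]
      rw [Finset.sum_congr rfl fun m _ => h1 m, ← Finset.sum_filter, Finset.sum_const,
        nsmul_eq_mul]
      refine mul_le_mul_of_nonneg_right ?_ (hω k)
      have h2 : ((Finset.univ : Finset (Fin Jm)).filter fun m : Fin Jm => (m : ℕ) < ex a k).card ≤
          (Finset.range (ex a k)).card := by
        refine Finset.card_le_card_of_injOn (fun m : Fin Jm => (m : ℕ)) ?_ ?_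
        · intro m hm
          have := (Finset.mem_filter.1 hm).2
          simpa using this
        · intro m _ m' _ h
          exact Fin.ext h
      rw [Finset.card_range] at h2
      exact_mod_cast h2
    · intro i _ hi
      refine Finset.sum_eq_zero fun m _ => if_neg ?_
      rintro ⟨h, -⟩
      exact hi h.symm
    · intro h
      exact absurd (Finset.mem_univ _) h
  · rw [Finset.sum_map_toList]
    refine le_of_eq ?_
    congr 1
    have e : ∑ j : Q × Fin Jm, ∑ k, (if idx k = j.1 then min (ω k) (θ j) else 0) =
        ∑ k, ∑ j : Q × Fin Jm, (if idx k = j.1 then min (ω k) (θ j) else 0) := Finset.sum_comm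
    rw [e]
    refine Finset.sum_congr rfl fun k _ => ?_
    rw [Fintype.sum_prod_type, Finset.sum_eq_single (idx k)]
    · exact Finset.sum_congr rfl fun m _ => (if_pos rfl).symm
    · intro i _ hi
      refine Finset.sum_eq_zero fun m _ => if_neg ?_
      intro h
      exact hi h.symm
    · intro h
      exact absurd (Finset.mem_univ _) h

end fd

end Pool.Agent.H85.W
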