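import Pool.Agent.H85.W.Scale
import Pool.Graph.R_pool_sql_team_seeded_3dad9d7b.NH28.T2

/-!
Hypersurface sections in general position.
-/

set_option autoImplicit false

namespace Pool.Agent.H85.W

open MvPolynomial Finset NumberField IsDedekindDomain Height Module MeasureTheory
open Pool.Agent.W180.OP Pool.Agent.W180.TP
open Pool.Agent.TH875 (top_members not_all form_ub)
open Pool.Agent.NH28

/-- the local height, divided by the degree, relative to `K` -/
noncomputable def Lh {K L : Type} [Field K] [NumberField K] [Field L] [NumberField L]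
    [Algebra K L] {n : ℕ} (v : Pl K) (d : ℕ) (F : MvPolynomial (Fin n) K) (x : Fin n → L)
    (w : Pl L) : ℝ := wt w * lam (av w) d (bc L F) x / (d * nn v w)

theorem t2ch {K : Type} [Field K] [NumberField K] {n m q ν r : ℕ} (hν : 1 ≤ ν) (hr : 1 ≤ r)
    (hq : ν + 1 ≤ q) (G : Fin m → MvPolynomial (Fin n) K) (g : Fin m → ℕ)
    (hG : ∀ k, (G k).IsHomogeneous (g k))
    (hprime : (Ideal.span (Set.range G)).IsPrime)
    (htr : Algebra.trdeg K (MvPolynomial (Fin n) K ⧸ Ideal.span (Set.range G)) = (ν + 1 : ℕ))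
    (F : Fin q → MvPolynomial (Fin n) K) (d : Fin q → ℕ) (hd : ∀ i, 1 ≤ d i)
    (hF : ∀ i, (F i).IsHomogeneous (d i))
    (hgp : ∀ e : Fin (ν + 1) ↪ Fin q, ∀ (L : Type) [Field L] [Algebra K L] (x : Fin n → L),
      (∀ k, aeval x (G k) = 0) → (∀ k, aeval x (F (e k)) = 0) → x = 0)
    (ε : ℝ) (hε : 0 < ε) :
    ∃ Z : MvPolynomial (Fin n) K, Z ∉ Ideal.span (Set.range G) ∧ (∃ t, Z.IsHomogeneous t) ∧
      ∀ S : Finset (Pl K), ∃ C : ℝ, 0 ≤ C ∧ ∀ (L : Type) [Field L] [NumberField L] [Algebra K L],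
        finrank K L ≤ r → ∀ x : Fin n → L, x ≠ 0 → (∀ k, aeval x (G k) = 0) →
        IntermediateField.adjoin K {z | ∃ i j, z = x i / x j} = ⊤ → aeval x Z ≠ 0 →
        (∀ i, aeval x (F i) ≠ 0) →
        ∑ v ∈ S, ∑ i, finrank K L * ∫ t in Set.Ioi (0 : ℝ), Vf ν (PP (ab L v) (nn v)
          (finrank K L) (Lh v (d i) (F i) x) t) ≤ (1 + ε) * logHeight x + C := by
  classical
  set D : ℕ := ∏ i, d i with hDd
  have hD : 1 ≤ D := Nat.one_le_iff_ne_zero.2
    (Finset.prod_ne_zero_iff.2 fun i _ => (Nat.one_le_iff_ne_zero.1 (hd i)))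
  have hdD : ∀ i, d i ∣ D := fun i => Finset.dvd_prod_of_mem d (Finset.mem_univ i)
  set Y : Fin q → MvPolynomial (Fin n) K := fun i => F i ^ (D / d i) with hY
  have hYh : ∀ i, (Y i).IsHomogeneous D := by
    intro i
    have := (hF i).pow (D / d i)
    rwa [Nat.mul_div_cancel' (hdD i)] at this
  set idx : (Fin (ν + 1) ↪ Fin q) → Fin (ν + 1) → Fin q := fun e k => e k with hidx
  have h0y : ∀ e, ∀ (L : Type) [Field L] [Algebra K L] (x : Fin n → L),
      (∀ k, aeval x (G k) = 0) → (∀ k, aeval x (Y (idx e k)) = 0) → x = 0 := by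
    intro e L _ _ x hx hxy
    refine hgp e L x hx fun k => ?_
    have h1 := hxy k
    simp only [hY, hidx, map_pow] at h1
    exact eq_zero_of_pow_eq_zero h1
  have hcov : ∀ i, ∃ (e : Fin (ν + 1) ↪ Fin q) (k : Fin (ν + 1)), idx e k = i := by
    intro i
    refine ⟨(Fin.castLEEmb hq).trans (Equiv.swap (Fin.castLE hq 0) i).toEmbedding, 0, ?_⟩
    show Equiv.swap (Fin.castLE hq 0) i (Fin.castLE hq 0) = i
    rw [Equiv.swap_apply_left]
  have : Nonempty (Fin (ν + 1) ↪ Fin q) := ⟨Fin.castLEEmb hq⟩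
  obtain ⟨Z, hZ, hZh, hmain⟩ := main_ch hν hr hD G g hG hprime htr Y hYh idx
    (fun e => e.injective) hcov h0y ε hε
  refine ⟨Z, hZ, hZh, fun S => ?_⟩
  obtain ⟨C, c0, hC0, hc00, hC⟩ := hmain S
  choose Ca hCa0 hCa using fun e => not_all (Nat.succ_pos ν) G g hG (fun k => Y (idx e k))
    (fun k => hYh _) (h0y e)
  have hCas : 0 ≤ ∑ e, Ca e := Finset.sum_nonneg fun e _ => hCa0 e
  set Qc : ℝ := (finrank ℚ K : ℝ) * r with hQ
  have hQ0 : 0 ≤ Qc := by positivity
  set W0 : ℝ := (∑ e, Ca e) * Qc with hW0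
  have hW00 : 0 ≤ W0 := mul_nonneg hCas hQ0
  refine ⟨C + S.card * (q * (r * (D * W0))), by positivity, ?_⟩
  intro L _ _ _ hrL x hx hGx hadj hZx hFx
  have hdL : 0 < finrank K L := finrank_pos
  set dL : ℝ := (finrank K L : ℝ) with hdLd
  have hdR : 0 < dL := by rw [hdLd]; exact_mod_cast hdL
  have hdr : dL ≤ r := by rw [hdLd]; exact_mod_cast hrL
  have hfq : (finrank ℚ L : ℝ) ≤ Qc := by
    have h1 : finrank ℚ K * finrank K L = finrank ℚ L := finrank_mul_finrank ℚ K L
    rw [hQ, ← h1]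
    push_cast
    exact mul_le_mul_of_nonneg_left (by exact_mod_cast hrL) (Nat.cast_nonneg _)
  have hfq0 : (0 : ℝ) ≤ finrank ℚ L := Nat.cast_nonneg _
  have hYx : ∀ i, aeval x (Y i) ≠ 0 := by
    intro i
    simp only [hY, map_pow]
    exact pow_ne_zero _ (hFx _)
  have hd0 : ∀ i, (1 : ℝ) ≤ d i := fun i => by exact_mod_cast hd i
  have hD1 : (1 : ℝ) ≤ D := by exact_mod_cast hD
  have hD0 : (0 : ℝ) < D := by linarith
  choose e he using fun w : Pl L => top_members hq
    (fun i => lam (av w) (d i) (bc L (F i)) x / d i)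
  obtain ⟨hpos, hfin⟩ := hC L hrL x hx hGx hadj hZx e (fun w k => hYx _)
  -- the local terms
  have hlamY : ∀ (w : Pl L) i, lam (av w) D (bc L (Y i)) x =
      D * (lam (av w) (d i) (bc L (F i)) x / d i) := by
    intro w i
    have hdk : (d i : ℝ) ≠ 0 := by
      have := hd0 i
      linarith
    have e1 : (D : ℝ) = d i * ((D / d i : ℕ) : ℝ) := by
      exact_mod_cast (Nat.mul_div_cancel' (hdD i)).symm
    have e2 : rho (av w) D (Y i) x = rho (av w) (d i) (F i) x ^ (D / d i) := by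
      have h1 := rho_pow (K := K) (av w) (d i) (D / d i) (F i) x
      rw [Nat.mul_div_cancel' (hdD i)] at h1
      exact h1
    rw [lam_rho, e2, Real.log_pow, lam_rho]
    conv_rhs => rw [e1]
    field_simp
  have hLh : ∀ v (w : Pl L), w ∈ ab L v → ∀ i, D * Lh v (d i) (F i) x w =
      wt w * lam (av w) D (bc L (Y i)) x / nn v w := by
    intro v w hw i
    have hnn := one_le_nn (mem_ab.1 hw)
    have hdi := hd0 i
    unfold Lh
    rw [hlamY]
    have h1 : nn v w ≠ 0 := by linarith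
    have h2 : (d i : ℝ) ≠ 0 := by linarith
    field_simp
  -- comparison
  have hcmp : ∀ v i, ∀ w ∈ ab L v, D * Lh v (d i) (F i) x w ≤
      Lam v c0 D Y x (fun w => idx (e w)) i w + D * W0 := by
    intro v i w hw
    have hnn := one_le_nn (mem_ab.1 hw)
    have hwt := wt_nonneg w
    rw [hLh v w hw i]
    by_cases hi : ∃ k, e w k = i
    · obtain ⟨k, rfl⟩ := hi
      have h1 : Lam v c0 D Y x (fun w => idx (e w)) (e w k) w = LL v w c0 D (Y (e w k)) x := by
        unfold Lam
        rw [Finset.sum_eq_single k]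
        · exact if_pos rfl
        · intro k' _ hne
          exact if_neg fun h => hne ((e w).injective h)
        · intro h
          exact absurd (Finset.mem_univ k) h
      rw [h1]
      unfold LL
      have h2 : wt w * lam (av w) D (bc L (Y (e w k))) x / nn v w ≤
          (wt w * lam (av w) D (bc L (Y (e w k))) x + c0) / nn v w :=
        div_le_div_of_nonneg_right (by linarith) (by linarith)
      have h3 : 0 ≤ D * W0 := by positivity
      linarith
    · push Not at hi
      have h1 : Lam v c0 D Y x (fun w => idx (e w)) i w = 0 :=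
        Finset.sum_eq_zero fun k _ => if_neg (hi k)
      rw [h1, zero_add]
      obtain ⟨k1, hk1⟩ := hCa (e w) L w x hx hGx (fun k => hYx _)
      have hCaw : Ca (e w) * finrank ℚ L ≤ W0 :=
        mul_le_mul (Finset.single_le_sum (f := Ca) (fun e _ => hCa0 e) (Finset.mem_univ _)) hfq
          hfq0 hCas
      have h2 := he w i (by rintro ⟨k, hk⟩; exact hi k hk) k1
      have h3 : wt w * lam (av w) D (bc L (Y i)) x ≤ W0 := by
        rw [hlamY]
        have h4 : wt w * lam (av w) D (bc L (Y (idx (e w) k1))) x ≤ W0 := hk1.trans hCaw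
        rw [hlamY] at h4
        refine le_trans ?_ h4
        exact mul_le_mul_of_nonneg_left (mul_le_mul_of_nonneg_left h2 hD0.le) hwt
      have h4 : W0 ≤ D * W0 := le_mul_of_one_le_left hW00 hD1
      rcases le_total (wt w * lam (av w) D (bc L (Y i)) x) 0 with h5 | h5
      · have h6 : wt w * lam (av w) D (bc L (Y i)) x / nn v w ≤ 0 :=
          div_nonpos_of_nonpos_of_nonneg h5 (by linarith)
        linarith
      · have h6 : wt w * lam (av w) D (bc L (Y i)) x / nn v w ≤
            wt w * lam (av w) D (bc L (Y i)) x := div_le_self h5 hnn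
        linarith
  have hone : ∀ v i, D * (dL * ∫ t in Set.Ioi (0 : ℝ), Vf ν (PP (ab L v) (nn v) dL
      (Lh v (d i) (F i) x) t)) ≤ dL * (∫ t in Set.Ioi (0 : ℝ), Vf ν (PP (ab L v) (nn v) dL
        (Lam v c0 D Y x (fun w => idx (e w)) i) t)) + D * (r * (D * W0)) := by
    intro v i
    have h1 := int_scale (ab L v) (nn v) dL (Lh v (d i) (F i) x) (Vf ν) D hD0
    have h2 := int_shift_le (ab L v) (nn v) (fun w _ => nn_nonneg v w) dL hdR hν (sum_nn L v)
      (fun w => D * Lh v (d i) (F i) x w) (Lam v c0 D Y x (fun w => idx (e w)) i) (D * W0)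
      (by positivity) (hcmp v i)
    rw [h1] at h2
    have h3 := mul_le_mul_of_nonneg_left h2 hdR.le
    have h4 : dL * (D * W0) ≤ D * (r * (D * W0)) := by
      have h5 : dL * (D * W0) ≤ r * (D * W0) := mul_le_mul_of_nonneg_right hdr (by positivity)
      have h6 : r * (D * W0) ≤ D * (r * (D * W0)) := le_mul_of_one_le_left (by positivity) hD1
      linarith
    have h5 : D * (dL * ∫ t in Set.Ioi (0 : ℝ), Vf ν (PP (ab L v) (nn v) dL
      (Lh v (d i) (F i) x) t)) = dL * (D * ∫ t in Set.Ioi (0 : ℝ), Vf ν (PP (ab L v) (nn v) dL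
      (Lh v (d i) (F i) x) t)) := by ring
    rw [h5]
    rw [mul_add] at h3
    linarith
  have h1 : D * ∑ v ∈ S, ∑ i, dL * ∫ t in Set.Ioi (0 : ℝ), Vf ν (PP (ab L v) (nn v) dL
      (Lh v (d i) (F i) x) t) ≤ D * ((1 + ε) * logHeight x + (C +
        S.card * (q * (r * (D * W0))))) := by
    have h2 : D * ∑ v ∈ S, ∑ i, dL * ∫ t in Set.Ioi (0 : ℝ), Vf ν (PP (ab L v) (nn v) dL
      (Lh v (d i) (F i) x) t) ≤ ∑ v ∈ S, ∑ i : Fin q, (dL * (∫ t in Set.Ioi (0 : ℝ),
        Vf ν (PP (ab L v) (nn v) dL (Lam v c0 D Y x (fun w => idx (e w)) i) t)) +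
          D * (r * (D * W0))) := by
      rw [Finset.mul_sum]
      refine Finset.sum_le_sum fun v _ => ?_
      rw [Finset.mul_sum]
      exact Finset.sum_le_sum fun i _ => hone v i
    refine h2.trans ?_
    simp only [Finset.sum_add_distrib, Finset.sum_const, Finset.card_univ, Fintype.card_fin,
      nsmul_eq_mul]
    have h3 : C ≤ D * C := le_mul_of_one_le_left hC0 hD1
    have h4 : D * ((1 + ε) * logHeight x + (C + S.card * (q * (r * (D * W0))))) =
      D * (1 + ε) * logHeight x + D * C + S.card * (q * (D * (r * (D * W0)))) := by ring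
    rw [h4]
    linarith
  exact le_of_mul_le_mul_left h1 hD0

end Pool.Agent.H85.W
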